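import Pool.Agent.Lib_helper9.LOT.Defs

/-!
# Counting
-/

namespace RLT
open Finset

section switching

variable {V E : Type} [Fintype V] [Fintype E]

open Classical in
/-- reduced labelings with values in `T` on `K` -/
noncomputable def redOn (i t : E → V) (T : Finset V) (K : Finset E) : Finset (E → V) :=
  univ.filter (fun lab => (LOG.mk i t lab).Reduced ∧ ∀ e ∈ K, lab e ∈ T)

open Classical in
noncomputable def allowed (i t : E → V) (lab : E → V) (e : E) : Finset V :=
  univ \ ({i e, t e} ∪ (univ.filter fun e' => e' ≠ e ∧ i e' = i e).image lab ∪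
    (univ.filter fun e' => e' ≠ e ∧ t e' = t e).image lab)

open Classical in
lemma card_allowed (i t : E → V) (lab : E → V) (e : E) (D : ℕ)
    (h1 : (univ.filter fun e' => e' ≠ e ∧ i e' = i e).card ≤ D)
    (h2 : (univ.filter fun e' => e' ≠ e ∧ t e' = t e).card ≤ D) :
    Fintype.card V - 2 - 2 * D ≤ (allowed i t lab e).card := by
  unfold allowed
  rw [card_sdiff_of_subset (subset_univ _), card_univ]
  have a1 := card_union_le ({i e, t e} ∪ (univ.filter fun e' => e' ≠ e ∧ i e' = i e).image lab)
    ((univ.filter fun e' => e' ≠ e ∧ t e' = t e).image lab)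
  have a2 := card_union_le {i e, t e} ((univ.filter fun e' => e' ≠ e ∧ i e' = i e).image lab)
  have a3 : ({i e, t e} : Finset V).card ≤ 2 := card_le_two
  have a4 : ((univ.filter fun e' => e' ≠ e ∧ i e' = i e).image lab).card ≤ D :=
    card_image_le.trans h1
  have a5 : ((univ.filter fun e' => e' ≠ e ∧ t e' = t e).image lab).card ≤ D :=
    card_image_le.trans h2
  omega

open Classical in
lemma update_reduced (i t : E → V) (lab : E → V) (e : E) (y : V)
    (h : (LOG.mk i t lab).Reduced) (hy : y ∈ allowed i t lab e) :
    (LOG.mk i t (Function.update lab e y)).Reduced := by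
  simp only [allowed, mem_sdiff, mem_univ, true_and, mem_union, mem_insert, mem_singleton,
    mem_image, mem_filter, not_or, not_exists, not_and] at hy
  obtain ⟨⟨⟨y1, y2⟩, y3⟩, y4⟩ := hy
  obtain ⟨r1, r2, r3⟩ := h
  simp only at r1 r2 r3
  refine ⟨fun x => ?_, fun x x' hxx hi => ?_, fun x x' hxx hi => ?_⟩
  · simp only
    by_cases hx : x = e
    · subst hx; rw [Function.update_self]; exact ⟨y1, y2⟩
    · rw [Function.update_of_ne hx]; exact r1 x
  · simp only at hi ⊢
    by_cases hx : x = e
    · subst hx
      rw [Function.update_self, Function.update_of_ne (Ne.symm hxx)]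
      exact fun e' => y3 x' ⟨Ne.symm hxx, hi.symm⟩ e'.symm
    · rw [Function.update_of_ne hx]
      by_cases hx' : x' = e
      · subst hx'
        rw [Function.update_self]
        exact y3 x ⟨hx, hi⟩
      · rw [Function.update_of_ne hx']
        exact r2 x x' hxx hi
  · simp only at hi ⊢
    by_cases hx : x = e
    · subst hx
      rw [Function.update_self, Function.update_of_ne (Ne.symm hxx)]
      exact fun e' => y4 x' ⟨Ne.symm hxx, hi.symm⟩ e'.symm
    · rw [Function.update_of_ne hx]
      by_cases hx' : x' = e
      · subst hx'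
        rw [Function.update_self]
        exact y4 x ⟨hx, hi⟩
      · rw [Function.update_of_ne hx']
        exact r3 x x' hxx hi

open Classical in
lemma switch_one (i t : E → V) (T : Finset V) (K : Finset E) (e : E) (he : e ∉ K) (D : ℕ)
    (h1 : ∀ e, (univ.filter fun e' => e' ≠ e ∧ i e' = i e).card ≤ D)
    (h2 : ∀ e, (univ.filter fun e' => e' ≠ e ∧ t e' = t e).card ≤ D) :
    (redOn i t T (insert e K)).card * (Fintype.card V - 2 - 2 * D) ≤
      T.card * (redOn i t T K).card := by
  have e1 : (redOn i t T (insert e K)).card * (Fintype.card V - 2 - 2 * D) ≤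
      ((redOn i t T (insert e K)).sigma (fun lab => allowed i t lab e)).card := by
    rw [card_sigma, ← smul_eq_mul]
    refine Finset.card_nsmul_le_sum _ _ _ fun lab _ => ?_
    exact card_allowed i t lab e D (h1 e) (h2 e)
  refine e1.trans ?_
  rw [← card_product]
  refine card_le_card_of_injOn (fun x => (x.1 e, Function.update x.1 e x.2)) ?_ ?_
  · rintro ⟨lab, y⟩ hx
    simp only [coe_sigma, Set.mem_sigma_iff, mem_coe, redOn, mem_filter, mem_univ, true_and,
      mem_insert, forall_eq_or_imp] at hx
    obtain ⟨⟨hr, hT, hK⟩, hy⟩ := hx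
    simp only [coe_product, Set.mem_prod, mem_coe, redOn, mem_filter, mem_univ, true_and]
    refine ⟨hT, update_reduced i t lab e y hr hy, fun x hx => ?_⟩
    have : x ≠ e := by rintro rfl; exact he hx
    rw [Function.update_of_ne this]
    exact hK x hx
  · rintro ⟨lab, y⟩ _ ⟨lab', y'⟩ _ h
    simp only [Prod.mk.injEq] at h
    obtain ⟨ha, hb⟩ := h
    have h1 : y = y' := by
      have := congrFun hb e
      simpa using this
    have h2 : lab = lab' := by
      funext x
      by_cases hx : x = e
      · rw [hx]; exact ha
      · have := congrFun hb x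
        rwa [Function.update_of_ne hx, Function.update_of_ne hx] at this
    subst h1 h2
    rfl

open Classical in
lemma switch (i t : E → V) (T : Finset V) (K : Finset E) (D : ℕ)
    (h1 : ∀ e, (univ.filter fun e' => e' ≠ e ∧ i e' = i e).card ≤ D)
    (h2 : ∀ e, (univ.filter fun e' => e' ≠ e ∧ t e' = t e).card ≤ D) :
    (redOn i t T K).card * (Fintype.card V - 2 - 2 * D) ^ K.card ≤
      T.card ^ K.card * (redOn i t T ∅).card := by
  induction K using Finset.induction_on with
  | empty => simp
  | insert e K he ih =>
    rw [card_insert_of_notMem he, pow_succ, pow_succ]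
    have := switch_one i t T K e he D h1 h2
    calc (redOn i t T (insert e K)).card * ((Fintype.card V - 2 - 2 * D) ^ K.card *
          (Fintype.card V - 2 - 2 * D))
        = ((redOn i t T (insert e K)).card * (Fintype.card V - 2 - 2 * D)) *
          (Fintype.card V - 2 - 2 * D) ^ K.card := by ring
      _ ≤ (T.card * (redOn i t T K).card) * (Fintype.card V - 2 - 2 * D) ^ K.card :=
          Nat.mul_le_mul_right _ this
      _ = T.card * ((redOn i t T K).card * (Fintype.card V - 2 - 2 * D) ^ K.card) := by ring
      _ ≤ T.card * (T.card ^ K.card * (redOn i t T ∅).card) := Nat.mul_le_mul_left _ ih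
      _ = T.card ^ K.card * T.card * (redOn i t T ∅).card := by ring

end switching

end RLT
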