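import Mathlib

/-!
# Labelled oriented graphs, spherical diagrams, diagrammatic reducibility
-/

namespace RLT

/-- A labelled oriented graph: `e` is oriented from `i e` to `t e` and labelled by `lab e`. -/
structure LOG (V E : Type) where
  i : E → V
  t : E → V
  lab : E → V

variable {V E : Type}

/-- The four letters of the relator `i(e) λ(e) t(e)⁻¹ λ(e)⁻¹`; a letter is a generator with the
exponent `1` (`true`) or `-1` (`false`). -/
def LOG.letter (L : LOG V E) (e : E) : Fin 4 → V × Bool :=
  ![(L.i e, true), (L.lab e, true), (L.t e, false), (L.lab e, false)]

/-- the inverse letter -/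
def inv (x : V × Bool) : V × Bool := (x.1, !x.2)

/-- the number of cycles (fixed points included) of a permutation -/
noncomputable def numCycles {D : Type} (f : Equiv.Perm D) : ℕ :=
  Nat.card (Quotient (Equiv.Perm.SameCycle.setoid f))

/-- A spherical diagram over the 2-complex `K(L)`: a cell decomposition of the 2-sphere, given as a
combinatorial map, and a combinatorial map to `K(L)`. `Side` is the set of pairs (face, side of this
face); `nxt` is the next side of the same face, `opp` the same edge seen from the other side.
The faces are the cycles of `nxt`, the edges those of `opp`, the vertices those of `nxt * opp`.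
The side `d` lies over the letter number `pos d` of the relator of `sq d`; its face is mapped to
this square with the orientation of the relator if `fwd d`, against it if not. -/
structure SphericalDiagram (L : LOG V E) where
  Side : Type
  fin : Fintype Side
  nxt : Equiv.Perm Side
  opp : Equiv.Perm Side
  nxt_four : ∀ d, nxt (nxt (nxt (nxt d))) = d
  opp_opp : ∀ d, opp (opp d) = d
  opp_ne : ∀ d, opp d ≠ d
  connected : ∀ S : Set Side, S.Nonempty → (∀ d ∈ S, nxt d ∈ S ∧ opp d ∈ S) → S = Set.univ
  euler : (numCycles (nxt * opp) : ℤ) - numCycles opp + numCycles nxt = 2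
  sq : Side → E
  pos : Side → Fin 4
  fwd : Side → Bool
  sq_nxt : ∀ d, sq (nxt d) = sq d
  fwd_nxt : ∀ d, fwd (nxt d) = fwd d
  pos_nxt : ∀ d, pos (nxt d) = if fwd d then pos d + 1 else pos d - 1
  glue : ∀ d, (if fwd (opp d) then L.letter (sq (opp d)) (pos (opp d))
      else inv (L.letter (sq (opp d)) (pos (opp d)))) =
    inv (if fwd d then L.letter (sq d) (pos d) else inv (L.letter (sq d) (pos d)))

/-- `K(L)` is diagrammatically reducible: in every spherical diagram there is an edge along which
two faces are folded (both are mapped to the same square, the common side to the same side of it,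
with opposite orientations). -/
def DR (L : LOG V E) : Prop :=
  ∀ X : SphericalDiagram L, ∃ d, X.sq (X.opp d) = X.sq d ∧ X.pos (X.opp d) = X.pos d ∧
    X.fwd (X.opp d) ≠ X.fwd d

/-- `L` is reduced: no label is an end point of its edge, and two edges with the same starting
point, or with the same end point, have different labels. -/
def LOG.Reduced (L : LOG V E) : Prop :=
  (∀ e, L.lab e ≠ L.i e ∧ L.lab e ≠ L.t e) ∧
  (∀ e e', e ≠ e' → L.i e = L.i e' → L.lab e ≠ L.lab e') ∧
  (∀ e e', e ≠ e' → L.t e = L.t e' → L.lab e ≠ L.lab e')

/-- The labelled oriented tree with vertices `0, …, n` whose edge number `j < n` joins `j + 1` and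
`p j ≤ j` and is oriented from `p j` to `j + 1` if `o j`, from `j + 1` to `p j` if not. Every
oriented tree with `n` edges is of this form, for a suitable numbering of its vertices. -/
def tree {n : ℕ} (p : Fin n → Fin (n + 1)) (o : Fin n → Bool) (lab : Fin n → Fin (n + 1)) :
    LOG (Fin (n + 1)) (Fin n) where
  i := fun j => if o j then p j else j.succ
  t := fun j => if o j then j.succ else p j
  lab := lab

end RLT
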