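import Mathlib

/-!
# Counting sub-forests of a tree
-/

namespace RLT
open Finset

variable {n : ℕ}

/-- pairs (vertex set, set of edges of the tree inside) of given sizes -/
def forests (p : Fin n → Fin (n + 1)) (v k : ℕ) :
    Finset (Finset (Fin (n + 1)) × Finset (Fin n)) :=
  univ.filter (fun x => x.1.card = v ∧ x.2.card = k ∧ ∀ j ∈ x.2, j.succ ∈ x.1 ∧ p j ∈ x.1)

lemma card_children (p : Fin n → Fin (n + 1)) (D : ℕ)
    (hD : ∀ v, (univ.filter fun j => p j = v).card ≤ D) (T : Finset (Fin (n + 1))) :
    (univ.filter fun j => p j ∈ T).card ≤ T.card * D := by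
  have : (univ.filter fun j => p j ∈ T) ⊆ T.biUnion (fun v => univ.filter fun j => p j = v) := by
    intro j hj
    rw [mem_filter] at hj
    exact mem_biUnion.2 ⟨p j, hj.2, by simp⟩
  refine (card_le_card this).trans (card_biUnion_le_card_mul _ _ _ fun v _ => hD v)

lemma forests_succ_subset (p : Fin n → Fin (n + 1)) (hp : ∀ j, (p j : ℕ) ≤ j) (v k : ℕ) :
    forests p (v + 1) k ⊆
      (forests p v k).biUnion (fun x => univ.image fun m => (insert m x.1, x.2)) ∪
      (forests p v (k - 1)).biUnion (fun x =>
        if k = 0 then ∅ else (univ.filter fun j => p j ∈ x.1).image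
          fun j => (insert j.succ x.1, insert j x.2)) := by
  rintro ⟨T, K⟩ h
  simp only [forests, mem_filter, mem_univ, true_and] at h
  obtain ⟨hT, hK, hj⟩ := h
  have hne : T.Nonempty := by rw [← card_pos]; omega
  set m := T.max' hne with hm
  have hmT : m ∈ T := T.max'_mem hne
  have hmax : ∀ x ∈ T, x ≤ m := fun x hx => T.le_max' x hx
  have hcard : (T.erase m).card = v := by rw [card_erase_of_mem hmT]; omega
  have hlt : ∀ j : Fin n, p j < j.succ := by
    intro j
    have := hp j
    rw [Fin.lt_def, Fin.val_succ]; omega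
  rw [mem_union]
  by_cases hc : ∃ j ∈ K, j.succ = m
  · right
    obtain ⟨j, hjK, hjm⟩ := hc
    have hk0 : k ≠ 0 := by
      rintro rfl
      rw [card_eq_zero] at hK
      rw [hK] at hjK
      simp at hjK
    rw [mem_biUnion]
    refine ⟨(T.erase m, K.erase j), ?_, ?_⟩
    · simp only [forests, mem_filter, mem_univ, true_and]
      refine ⟨hcard, by rw [card_erase_of_mem hjK, hK], fun j' hj' => ?_⟩
      have hj'' := mem_erase.1 hj'
      have hne' : j'.succ ≠ m := by
        rw [← hjm]; exact fun e => hj''.1 (Fin.succ_injective _ e)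
      refine ⟨mem_erase.2 ⟨hne', (hj j' hj''.2).1⟩, mem_erase.2 ⟨?_, (hj j' hj''.2).2⟩⟩
      have h1 := hmax _ (hj j' hj''.2).1
      exact ne_of_lt ((hlt j').trans_le h1)
    · rw [if_neg hk0, mem_image]
      refine ⟨j, ?_, ?_⟩
      · rw [mem_filter]
        refine ⟨mem_univ _, mem_erase.2 ⟨?_, (hj j hjK).2⟩⟩
        rw [← hjm]
        exact ne_of_lt (hlt j)
      · simp only [hjm, Prod.mk.injEq]
        exact ⟨insert_erase hmT, insert_erase hjK⟩
  · left
    push Not at hc
    rw [mem_biUnion]
    refine ⟨(T.erase m, K), ?_, ?_⟩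
    · simp only [forests, mem_filter, mem_univ, true_and]
      refine ⟨hcard, hK, fun j' hj' => ?_⟩
      refine ⟨mem_erase.2 ⟨hc j' hj', (hj j' hj').1⟩, mem_erase.2 ⟨?_, (hj j' hj').2⟩⟩
      have h1 := hmax _ (hj j' hj').1
      exact ne_of_lt ((hlt j').trans_le h1)
    · rw [mem_image]
      exact ⟨m, mem_univ _, by rw [insert_erase hmT]⟩

lemma card_forests_succ (p : Fin n → Fin (n + 1)) (hp : ∀ j, (p j : ℕ) ≤ j) (D : ℕ)
    (hD : ∀ v, (univ.filter fun j => p j = v).card ≤ D) (v k : ℕ) :
    (forests p (v + 1) k).card ≤ (forests p v k).card * (n + 1) +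
      (if k = 0 then 0 else (forests p v (k - 1)).card * (v * D)) := by
  refine (card_le_card (forests_succ_subset p hp v k)).trans ((card_union_le _ _).trans ?_)
  refine Nat.add_le_add ?_ ?_
  · refine card_biUnion_le_card_mul _ _ _ fun x _ => ?_
    refine card_image_le.trans ?_
    rw [card_univ, Fintype.card_fin]
  · by_cases hk : k = 0
    · subst hk
      simp only [if_true]
      rw [Nat.le_zero, card_eq_zero, eq_empty_iff_forall_notMem]
      intro x hx
      simp at hx
    · rw [if_neg hk]
      refine card_biUnion_le_card_mul _ _ _ fun x hx => ?_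
      rw [if_neg hk]
      refine card_image_le.trans ?_
      refine (card_children p D hD x.1).trans ?_
      simp only [forests, mem_filter] at hx
      rw [hx.2.1]

lemma card_forests (p : Fin n → Fin (n + 1)) (hp : ∀ j, (p j : ℕ) ≤ j) (D A : ℕ)
    (hD : ∀ v, (univ.filter fun j => p j = v).card ≤ D) (v : ℕ) :
    (v * D + 1 ≤ A) → ∀ k, (forests p v k).card * (n + 1) ^ k ≤ (A * (n + 1)) ^ v := by
  induction v with
  | zero =>
    intro _ k
    have h1 : ∀ x ∈ forests p 0 k, k = 0 ∧ x = (∅, ∅) := by
      rintro ⟨T, K⟩ h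
      simp only [forests, mem_filter, mem_univ, true_and, card_eq_zero] at h
      obtain ⟨h1, h2, h3⟩ := h
      have hK : K = ∅ := by
        rw [eq_empty_iff_forall_notMem]
        intro j hj
        have := (h3 j hj).1
        rw [h1] at this
        simp at this
      refine ⟨by rw [← h2, hK]; rfl, by rw [h1, hK]⟩
    by_cases hk : k = 0
    · subst hk
      have : forests p 0 0 ⊆ {(∅, ∅)} := fun x hx => by rw [mem_singleton]; exact (h1 x hx).2
      have := card_le_card this
      simpa using this
    · have : forests p 0 k = ∅ := by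
        rw [eq_empty_iff_forall_notMem]
        intro x hx
        exact hk (h1 x hx).1
      rw [this]; simp
  | succ v ih =>
    intro hA k
    have hA' : v * D + 1 ≤ A := by nlinarith
    have ih := ih hA'
    have h := card_forests_succ p hp D hD v k
    by_cases hk : k = 0
    · subst hk
      have := ih 0
      simp only [pow_zero, mul_one, if_true, add_zero] at *
      calc (forests p (v + 1) 0).card ≤ (forests p v 0).card * (n + 1) := h
        _ ≤ (A * (n + 1)) ^ v * (n + 1) := Nat.mul_le_mul_right _ this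
        _ ≤ (A * (n + 1)) ^ v * (A * (n + 1)) := by
            refine Nat.mul_le_mul_left _ ?_
            have : 1 ≤ A := by omega
            nlinarith
        _ = (A * (n + 1)) ^ (v + 1) := (pow_succ _ _).symm
    · obtain ⟨l, rfl⟩ := Nat.exists_eq_succ_of_ne_zero hk
      have i1 := ih (l + 1)
      have i2 := ih l
      simp only [Nat.succ_eq_add_one, Nat.add_sub_cancel, if_neg (Nat.succ_ne_zero l)] at h
      calc (forests p (v + 1) (l + 1)).card * (n + 1) ^ (l + 1)
          ≤ ((forests p v (l + 1)).card * (n + 1) + (forests p v l).card * (v * D)) *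
            (n + 1) ^ (l + 1) := Nat.mul_le_mul_right _ h
        _ = ((forests p v (l + 1)).card * (n + 1) ^ (l + 1)) * (n + 1) +
            ((forests p v l).card * (n + 1) ^ l) * ((n + 1) * (v * D)) := by ring
        _ ≤ (A * (n + 1)) ^ v * (n + 1) + (A * (n + 1)) ^ v * ((n + 1) * (v * D)) :=
            Nat.add_le_add (Nat.mul_le_mul_right _ i1) (Nat.mul_le_mul_right _ i2)
        _ = (A * (n + 1)) ^ v * ((v * D + 1) * (n + 1)) := by ring
        _ ≤ (A * (n + 1)) ^ v * (A * (n + 1)) :=
            Nat.mul_le_mul_left _ (Nat.mul_le_mul_right _ hA')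
        _ = (A * (n + 1)) ^ (v + 1) := (pow_succ _ _).symm

end RLT
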