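import Pool.Agent.Lib_helper9.LOT.Link

set_option linter.unusedSectionVars false

namespace RLT
open Finset

variable {A V : Type}

namespace Sys

variable [DecidableEq A] [DecidableEq V] {s : Sys A V}

lemma Join.mem_of {c : A × Bool} {P Q : V × Bool} (h : Join s c P Q) {T : Finset V}
    (h1 : P.1 ∈ T) (h2 : Q.1 ∈ T) : s.tl c.1 ∈ T ∧ s.hd c.1 ∈ T := by
  rcases h with ⟨rfl, rfl⟩ | ⟨rfl, rfl⟩
  · exact ⟨h1, h2⟩
  · exact ⟨h2, h1⟩

lemma Join.verts_left {c : A × Bool} {P Q : V × Bool} (h : Join s c P Q) {C : Finset A}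
    (hc : c.1 ∈ C) : P.1 ∈ s.verts C := by
  rcases h with ⟨rfl, rfl⟩ | ⟨rfl, rfl⟩
  · exact tl_mem hc
  · exact hd_mem hc

lemma Join.verts_right {c : A × Bool} {P Q : V × Bool} (h : Join s c P Q) {C : Finset A}
    (hc : c.1 ∈ C) : Q.1 ∈ s.verts C := h.symm.verts_left hc

/-- two different corners of the same arc meeting at `Q` -/
lemma Ok.turn (ok : s.Ok) {c c' : A × Bool} {P Q R : V × Bool} (h : Join s c P Q)
    (h' : Join s c' Q R) (hne : c' ≠ c) (e : c.1 = c'.1) :
    P = s.tE c ∧ Q = s.hE c ∧ Q = s.hE c' ∧ R = s.tE c' ∧ R = (P.1, !P.2) := by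
  have h2 : c.2 ≠ c'.2 := fun e2 => hne (Prod.ext e e2).symm
  rcases h with ⟨h1, h3⟩ | ⟨h1, h3⟩ <;> rcases h' with ⟨h4, h5⟩ | ⟨h4, h5⟩
  · exfalso
    rw [h4] at h3
    have := congrArg Prod.fst h3
    simp only [tE, hE] at this
    exact ok.h0 c'.1 (by rw [this, e])
  · refine ⟨h1, h3, h4, h5, ?_⟩
    rw [h5, h1]
    simp only [tE, e, Prod.mk.injEq, true_and]
    revert h2
    cases c.2 <;> cases c'.2 <;> simp
  · exfalso
    rw [h4] at h3
    have := congrArg Prod.snd h3
    exact h2 this.symm
  · exfalso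
    rw [h4] at h3
    have := congrArg Prod.fst h3
    simp only [tE, hE] at this
    exact ok.h0 c'.1 (by rw [this, e])

structure Walk (s : Sys A V) (N : ℕ) (c : ℤ → A × Bool) (P : ℤ → V × Bool) : Prop where
  pos : 0 < N
  cper : ∀ j, c (j + N) = c j
  pper : ∀ j, P (j + N) = P j
  join : ∀ j, Join s (c j) (P j) (P (j + 1))
  red : ∀ j, c (j + 1) ≠ c j

variable {N : ℕ} {c : ℤ → A × Bool} {P : ℤ → V × Bool}

lemma Walk.shift (w : Walk s N c P) (a : ℤ) :
    Walk s N (fun j => c (a + j)) (fun j => P (a + j)) where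
  pos := w.pos
  cper j := by rw [← add_assoc, w.cper]
  pper j := by rw [← add_assoc, w.pper]
  join j := by have := w.join (a + j); rwa [add_assoc] at this
  red j := by have := w.red (a + j); rwa [add_assoc] at this

lemma Walk.reverse (w : Walk s N c P) :
    Walk s N (fun j => c (-1 - j)) (fun j => P (-j)) where
  pos := w.pos
  cper j := by
    have := w.cper (-1 - (j + N))
    rw [← this]; congr 1; ring
  pper j := by
    have := w.pper (-(j + N))
    rw [← this]; congr 1; ring
  join j := by
    have := (w.join (-1 - j)).symm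
    rw [show -1 - j + 1 = -j by ring] at this
    rw [show -(j + 1) = -1 - j by ring]
    exact this
  red j := by
    have := w.red (-1 - (j + 1))
    rw [show -1 - (j + 1) + 1 = -1 - j by ring] at this
    exact this.symm

lemma sum_shift_one (f : ℤ → ℕ) (hf : ∀ j, f (j + N) = f j) (a : ℤ) :
    ∑ j ∈ range N, f (a + 1 + j) = ∑ j ∈ range N, f (a + j) := by
  have h1 := Finset.sum_range_succ (fun j : ℕ => f (a + j)) N
  have h2 := Finset.sum_range_succ' (fun j : ℕ => f (a + j)) N
  have h3 : ∀ j : ℕ, f (a + ((j + 1 : ℕ) : ℤ)) = f (a + 1 + j) := by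
    intro j; congr 1; push_cast; ring
  simp only [h3, Nat.cast_zero, add_zero] at h2
  have h4 := hf a
  omega

lemma sum_shift (f : ℤ → ℕ) (hf : ∀ j, f (j + N) = f j) (a : ℤ) :
    ∑ j ∈ range N, f (a + j) = ∑ j ∈ range N, f j := by
  induction a using Int.induction_on with
  | zero => simp
  | succ n ih => rw [sum_shift_one f hf, ih]
  | pred n ih =>
    have := sum_shift_one f hf (-(n : ℤ) - 1)
    rw [show -(n : ℤ) - 1 + 1 = -n by ring, ih] at this
    exact this.symm

lemma Walk.sum_shift (w : Walk s N c P) (a : ℤ) :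
    ∑ j ∈ range N, s.W (c (a + j)) = ∑ j ∈ range N, s.W (c j) :=
  Sys.sum_shift (fun j => s.W (c j)) (fun j => by simp only [w.cper]) a

lemma Walk.sum_reverse (w : Walk s N c P) :
    ∑ j ∈ range N, s.W (c (-1 - j)) = ∑ j ∈ range N, s.W (c j) := by
  rw [← w.sum_shift (-(N : ℤ)), ← Finset.sum_range_reflect]
  refine Finset.sum_congr rfl fun j hj => ?_
  have hj := mem_range.1 hj
  congr 2
  have : ((N - 1 - j : ℕ) : ℤ) = (N : ℤ) - 1 - j := by omega
  rw [this]; ring


/-- P4 : a corner in the bad cycle joining the two heads of the cycle has weight 6 -/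
lemma Cyc.heads {C : Finset A} {b a : A} (h : Cyc s C b a) {e : A × Bool} (he : e.1 ∈ C)
    (hj : Join s e (s.hd a, s.sg a) (s.hd b, s.sg b)) : s.W e = 6 := by
  rcases hj with ⟨h1, h2⟩ | ⟨h1, h2⟩
  · -- the tail of e is the head of a, its head is the head of b
    simp only [tE, hE, Prod.mk.injEq] at h1 h2
    have e1 : e.1 = b := h.hda e.1 he (by rw [← h2.1, h.hba])
    refine W_six (b := a) ⟨h1.1, Or.inl ?_⟩ h1.2
    rw [e1, h.hba]
  · simp only [tE, hE, Prod.mk.injEq] at h1 h2
    have e1 : e.1 = a := h.tla e.1 he (by rw [← h2.1, h.hba])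
    exact W_six (b := b) (e1 ▸ h.feeds) h2.2

lemma Walk.zero_left (ok : s.Ok) (w : Walk s N c P) (h0 : s.W (c 0) = 0)
    (ht : P 0 = s.tE (c 0)) : 12 ≤ ∑ j ∈ range N, s.W (c j) := by
  obtain ⟨C, b, hz⟩ := ok.zero h0
  have hcyc := hz.cyc
  have hC3 := hcyc.card
  have hCt := hcyc.tight
  -- the corner g before
  have jg : Join s (c (-1)) (P (-1)) (P 0) := by
    have := w.join (-1); simpa using this
  have gne : c (-1) ≠ c 0 := by
    have := w.red (-1); simp only [neg_add_cancel] at this; exact this.symm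
  have gside : s.tE (c 0) = s.tE (c (-1)) ∨ s.tE (c 0) = s.hE (c (-1)) := by
    rcases jg with ⟨_, h⟩ | ⟨_, h⟩
    · right; rw [← ht, h]
    · left; rw [← ht, h]
  obtain ⟨gC, gW⟩ := hz.tail_side ok gne gside
  -- the end point of z
  have j0 : Join s (c 0) (P 0) (P 1) := by have := w.join 0; simpa using this
  have hP1 : P 1 = s.hE (c 0) := by
    rcases j0 with ⟨_, h⟩ | ⟨h, _⟩
    · exact h
    · exfalso
      rw [ht] at h
      exact ok.h0 _ (congrArg Prod.fst h)
  have jh : Join s (c 1) (P 1) (P 2) := by have := w.join 1; simpa using this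
  have hne : c 1 ≠ c 0 := by have := w.red 0; simpa using this
  have hW : s.W (c 1) ≠ 0 := by
    intro h
    refine ok.no_two_zero h0 h hne.symm (P := P 1) (Or.inr hP1) ?_
    rcases jh with ⟨h, _⟩ | ⟨h, _⟩
    · exact Or.inl h
    · exact Or.inr h
  have hy : (P 0).1 ∈ s.verts C := by rw [ht]; exact tl_mem hcyc.ha
  have hz1 : (P 1).1 ∈ s.verts C := by rw [hP1]; exact hd_mem hcyc.ha
  have hyz : (P 0).1 ≠ (P 1).1 := by
    rw [ht, hP1]; exact ok.h0 _
  -- g leaves the bad cycle
  have hp : (P (-1)).1 ∉ s.verts C := by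
    intro h
    have := jg.mem_of h hy
    exact hcyc.out ok gC this.1 this.2
  -- generic counting facts
  have two : ∀ (x y : A) (p : V), x ∉ C → y ∉ C → x ≠ y →
      (s.tl x ∈ insert p (s.verts C) ∧ s.hd x ∈ insert p (s.verts C)) →
      (s.tl y ∈ insert p (s.verts C) ∧ s.hd y ∈ insert p (s.verts C)) → False := by
    intro x y p hx hy hxy h1 h2
    have hc : (insert x (insert y C)).card = C.card + 2 := by
      rw [card_insert_of_notMem (by simp [hx, hxy]), card_insert_of_notMem hy]
    refine ok.few (insert x (insert y C)) (insert p (s.verts C)) (by omega) ?_ ?_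
    · intro v hv
      rcases mem_insert.1 hv with rfl | hv
      · exact h1
      rcases mem_insert.1 hv with rfl | hv
      · exact h2
      · exact ⟨mem_insert_of_mem (tl_mem hv), mem_insert_of_mem (hd_mem hv)⟩
    · have := card_insert_le p (s.verts C)
      omega
  have arc_mem : ∀ {e : A × Bool} {Q R : V × Bool}, Join s e Q R → ∀ T : Finset V,
      Q.1 ∈ T → R.1 ∈ T → s.tl e.1 ∈ T ∧ s.hd e.1 ∈ T := fun h T h1 h2 => h.mem_of h1 h2
  have hN := w.pos
  have base := w.sum_shift (-2)
  rcases Nat.lt_or_ge N 4 with hN4 | hN4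
  · exfalso
    have hN' : N = 1 ∨ N = 2 ∨ N = 3 := by omega
    rcases hN' with rfl | rfl | rfl
    · have := w.cper 0
      simp only [Nat.cast_one, zero_add] at this
      exact hne this
    · -- N = 2
      have e1 : P 1 = P (-1) := by have := w.pper (-1); simpa using this
      exact hp (e1 ▸ hz1)
    · -- N = 3
      have e1 : P 2 = P (-1) := by
        have := w.pper (-1)
        rw [show (-1 : ℤ) + ((3 : ℕ) : ℤ) = 2 by norm_num] at this; exact this
      rw [e1] at jh
      have hhC : (c 1).1 ∉ C := fun h => hp (jh.verts_right h)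
      by_cases hgh : (c (-1)).1 = (c 1).1
      · -- same arc : y = z
        have t1 : (P (-1)).1 = s.tl (c 1).1 ∧ (P 0).1 = s.hd (c 1).1 ∨
            (P (-1)).1 = s.hd (c 1).1 ∧ (P 0).1 = s.tl (c 1).1 := by
          rcases jg with ⟨h1, h2⟩ | ⟨h1, h2⟩
          · left; rw [h1, h2, ← hgh]; exact ⟨rfl, rfl⟩
          · right; rw [h1, h2, ← hgh]; exact ⟨rfl, rfl⟩
        have t2 : (P 1).1 = s.tl (c 1).1 ∧ (P (-1)).1 = s.hd (c 1).1 ∨
            (P 1).1 = s.hd (c 1).1 ∧ (P (-1)).1 = s.tl (c 1).1 := by
          rcases jh with ⟨h1, h2⟩ | ⟨h1, h2⟩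
          · left; rw [h1, h2]; exact ⟨rfl, rfl⟩
          · right; rw [h1, h2]; exact ⟨rfl, rfl⟩
        have := ok.h0 (c 1).1
        rcases t1 with ⟨a1, a2⟩ | ⟨a1, a2⟩ <;> rcases t2 with ⟨a3, a4⟩ | ⟨a3, a4⟩
        · exact this (a1.symm.trans a4)
        · exact hyz (a2.trans a3.symm)
        · exact hyz (a2.trans a3.symm)
        · exact this (a4.symm.trans a1)
      · exact two (c (-1)).1 (c 1).1 (P (-1)).1 gC hhC hgh
          (arc_mem jg _ (mem_insert_self _ _) (mem_insert_of_mem hy))
          (arc_mem jh _ (mem_insert_of_mem hz1) (mem_insert_self _ _))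
  · -- N ≥ 4
    have jf : Join s (c (-2)) (P (-2)) (P (-1)) := by
      have := w.join (-2)
      rw [show (-2 : ℤ) + 1 = -1 by norm_num] at this; exact this
    have gfne : c (-1) ≠ c (-2) := by
      have := w.red (-2)
      rw [show (-2 : ℤ) + 1 = -1 by norm_num] at this; exact this
    have fC : (c (-2)).1 ∉ C := fun h => hp (jf.verts_right h)
    have fW : s.W (c (-2)) ≠ 0 := by
      intro h
      obtain ⟨C', b', hz'⟩ := ok.zero h
      have hpC' : (P (-1)).1 ∈ s.verts C' := jf.verts_right hz'.cyc.ha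
      by_cases hm : ∃ v, v ∈ s.verts C ∧ v ∈ s.verts C'
      · obtain ⟨v, hv, hv'⟩ := hm
        have := hcyc.eq_of_meet ok hz'.cyc hv hv'
        exact hp (this ▸ hpC')
      · push Not at hm
        refine hcyc.no_join ok hz'.cyc hm (g := (c (-1)).1) ?_
        rcases jg with ⟨h1, h2⟩ | ⟨h1, h2⟩
        · right; rw [h1] at hpC'; rw [h2] at hy; exact ⟨hy, hpC'⟩
        · left; rw [h1] at hpC'; rw [h2] at hy; exact ⟨hy, hpC'⟩
    -- if g and f have the same arc then P (-2) is the other end of the arc g
    have turn : (c (-1)).1 = (c (-2)).1 → P (-2) = (s.hd b, s.sg b) := by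
      intro e
      have := (ok.turn jg.symm jf.symm gfne.symm e).2.2.2.2
      rw [this, ht]
      simp only [tE, Prod.mk.injEq]
      exact ⟨hcyc.hba.symm, hz.sg.symm⟩
    have hhd : P 1 = (s.hd (c 0).1, s.sg (c 0).1) := hP1
    rcases Nat.lt_or_ge N 6 with hN6 | hN6
    · have hN' : N = 4 ∨ N = 5 := by omega
      rcases hN' with rfl | rfl
      · -- N = 4
        have e2 : P 2 = P (-2) := by
          have := w.pper (-2)
          rw [show (-2 : ℤ) + ((4 : ℕ) : ℤ) = 2 by norm_num] at this; exact this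
        have ec2 : c 2 = c (-2) := by
          have := w.cper (-2)
          rw [show (-2 : ℤ) + ((4 : ℕ) : ℤ) = 2 by norm_num] at this; exact this
        have fhne : c (-2) ≠ c 1 := by
          have := w.red 1
          rw [show (1 : ℤ) + 1 = 2 by norm_num, ec2] at this; exact this
        rw [← base]
        simp only [Finset.sum_range_succ, Finset.sum_range_zero, Nat.cast_zero, Nat.cast_one,
          Nat.cast_ofNat, zero_add, add_zero]
        rw [show (-2 : ℤ) + 1 = -1 by norm_num, show (-2 : ℤ) + 2 = 0 by norm_num,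
          show (-2 : ℤ) + 3 = 1 by norm_num, h0, gW]
        by_contra hlt
        have c1 := s.W_cases (c (-2))
        have c2 := s.W_cases (c 1)
        have hW3 : s.W (c 1) = 3 := by omega
        rw [e2] at jh
        by_cases hq : (P (-2)).1 ∈ s.verts C
        · by_cases hgf : (c (-1)).1 = (c (-2)).1
          · have hP2 := turn hgf
            rw [hP2, hhd] at jh
            by_cases hhC : (c 1).1 ∈ C
            · have := hcyc.heads hhC jh
              omega
            · have := arc_mem jh (s.verts C) (hd_mem hcyc.ha) (hd_mem hcyc.hb)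
              exact hcyc.out ok hhC this.1 this.2
          · exact two (c (-1)).1 (c (-2)).1 (P (-1)).1 gC fC hgf
              (arc_mem jg _ (mem_insert_self _ _) (mem_insert_of_mem hy))
              (arc_mem jf _ (mem_insert_of_mem hq) (mem_insert_self _ _))
        · have hhC : (c 1).1 ∉ C := fun h => hq (jh.verts_right h)
          have n1 : (c (-1)).1 ≠ (c (-2)).1 := by
            intro e
            apply hq
            rw [turn e]
            exact hd_mem hcyc.hb
          have n2 : (c (-2)).1 ≠ (c 1).1 := by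
            intro e
            have := (ok.turn jh jf fhne e.symm).2.2.2.2
            apply hp
            rw [this]
            exact hz1
          have n3 : (c (-1)).1 ≠ (c 1).1 := by
            intro e
            have t1 : (P (-1)).1 = s.tl (c 1).1 ∧ (P 0).1 = s.hd (c 1).1 ∨
                (P (-1)).1 = s.hd (c 1).1 ∧ (P 0).1 = s.tl (c 1).1 := by
              rcases jg with ⟨h1, h2⟩ | ⟨h1, h2⟩
              · left; rw [h1, h2, ← e]; exact ⟨rfl, rfl⟩
              · right; rw [h1, h2, ← e]; exact ⟨rfl, rfl⟩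
            have t2 : (P 1).1 = s.tl (c 1).1 ∧ (P (-2)).1 = s.hd (c 1).1 ∨
                (P 1).1 = s.hd (c 1).1 ∧ (P (-2)).1 = s.tl (c 1).1 := by
              rcases jh with ⟨h1, h2⟩ | ⟨h1, h2⟩
              · left; rw [h1, h2]; exact ⟨rfl, rfl⟩
              · right; rw [h1, h2]; exact ⟨rfl, rfl⟩
            rcases t1 with ⟨a1, a2⟩ | ⟨a1, a2⟩ <;> rcases t2 with ⟨a3, a4⟩ | ⟨a3, a4⟩
            · exact hp (by rw [a1, ← a3]; exact hz1)
            · exact hyz (a2.trans a3.symm)
            · exact hyz (a2.trans a3.symm)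
            · exact hp (by rw [a1, ← a3]; exact hz1)
          have hc : (insert (c (-1)).1 (insert (c (-2)).1 (insert (c 1).1 C))).card
              = C.card + 3 := by
            rw [card_insert_of_notMem (by simp [gC, n1, n3]),
              card_insert_of_notMem (by simp [fC, n2]), card_insert_of_notMem hhC]
          refine ok.few (insert (c (-1)).1 (insert (c (-2)).1 (insert (c 1).1 C)))
            (insert (P (-1)).1 (insert (P (-2)).1 (s.verts C))) (by omega) ?_ ?_
          · intro v hv
            rcases mem_insert.1 hv with rfl | hv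
            · exact arc_mem jg _ (by simp) (by simp [hy])
            rcases mem_insert.1 hv with rfl | hv
            · exact arc_mem jf _ (by simp) (by simp)
            rcases mem_insert.1 hv with rfl | hv
            · exact arc_mem jh _ (by simp [hz1]) (by simp)
            · exact ⟨mem_insert_of_mem (mem_insert_of_mem (tl_mem hv)),
                mem_insert_of_mem (mem_insert_of_mem (hd_mem hv))⟩
          · have q1 := card_insert_le (P (-1)).1 (insert (P (-2)).1 (s.verts C))
            have q2 := card_insert_le (P (-2)).1 (s.verts C)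
            omega
      · -- N = 5
        have e3 : P 3 = P (-2) := by
          have := w.pper (-2)
          rw [show (-2 : ℤ) + ((5 : ℕ) : ℤ) = 3 by norm_num] at this; exact this
        have j2 : Join s (c 2) (P 2) (P (-2)) := by
          have := w.join 2
          rw [show (2 : ℤ) + 1 = 3 by norm_num, e3] at this; exact this
        have h12 : c 1 ≠ c 2 := by
          have := w.red 1
          rw [show (1 : ℤ) + 1 = 2 by norm_num] at this; exact this.symm
        have hW2 : s.W (c 2) ≠ 0 := by
          intro h2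
          obtain ⟨C', b', hz'⟩ := ok.zero h2
          have m2 : (P 2).1 ∈ s.verts C' := j2.verts_left hz'.cyc.ha
          have m3 : (P (-2)).1 ∈ s.verts C' := j2.verts_right hz'.cyc.ha
          by_cases hm : ∃ v, v ∈ s.verts C ∧ v ∈ s.verts C'
          · obtain ⟨v, hv, hv'⟩ := hm
            have e := hcyc.eq_of_meet ok hz'.cyc hv hv'
            rw [← e] at m2 m3
            by_cases hgf : (c (-1)).1 = (c (-2)).1
            · have hP2 := turn hgf
              rcases j2 with ⟨k1, k2⟩ | ⟨k1, k2⟩
              · -- P 2 is the tail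
                have side : s.tE (c 2) = s.tE (c 1) ∨ s.tE (c 2) = s.hE (c 1) := by
                  rcases jh with ⟨_, h⟩ | ⟨_, h⟩
                  · right; rw [← k1, h]
                  · left; rw [← k1, h]
                have := (hz'.tail_side ok h12 side).1
                rw [← e] at this
                have q := arc_mem jh (s.verts C) hz1 m2
                exact hcyc.out ok this q.1 q.2
              · -- P (-2) is the tail
                rw [hP2] at k2
                simp only [tE, Prod.mk.injEq] at k2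
                have e1 : (c 2).1 = (c 0).1 :=
                  hcyc.tla (c 2).1 (by rw [e]; exact hz'.cyc.ha) (by rw [← k2.1, hcyc.hba])
                have := W_six (b := b) (c := c 2) (e1 ▸ hcyc.feeds) k2.2
                omega
            · exact two (c (-1)).1 (c (-2)).1 (P (-1)).1 gC fC hgf
                (arc_mem jg _ (mem_insert_self _ _) (mem_insert_of_mem hy))
                (arc_mem jf _ (mem_insert_of_mem m3) (mem_insert_self _ _))
          · push Not at hm
            refine hcyc.no_join ok hz'.cyc hm (g := (c 1).1) ?_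
            rcases jh with ⟨h1, h3⟩ | ⟨h1, h3⟩
            · left; rw [h1] at hz1; rw [h3] at m2; exact ⟨hz1, m2⟩
            · right; rw [h1] at hz1; rw [h3] at m2; exact ⟨hz1, m2⟩
        rw [← base]
        simp only [Finset.sum_range_succ, Finset.sum_range_zero, Nat.cast_zero, Nat.cast_one,
          Nat.cast_ofNat, zero_add, add_zero]
        rw [show (-2 : ℤ) + 1 = -1 by norm_num, show (-2 : ℤ) + 2 = 0 by norm_num,
          show (-2 : ℤ) + 3 = 1 by norm_num, show (-2 : ℤ) + 4 = 2 by norm_num, h0, gW]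
        have c1 := s.W_cases (c (-2))
        have c2 := s.W_cases (c 1)
        have c3 := s.W_cases (c 2)
        omega
    · -- N ≥ 6
      rw [← base]
      have hsub : ∑ j ∈ range 6, s.W (c (-2 + (j : ℤ))) ≤ ∑ j ∈ range N, s.W (c (-2 + (j : ℤ))) :=
        Finset.sum_le_sum_of_subset (fun x hx => mem_range.2 (by have := mem_range.1 hx; omega))
      refine le_trans ?_ hsub
      simp only [Finset.sum_range_succ, Finset.sum_range_zero, Nat.cast_zero, Nat.cast_one,
        Nat.cast_ofNat, zero_add, add_zero]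
      rw [show (-2 : ℤ) + 1 = -1 by norm_num, show (-2 : ℤ) + 2 = 0 by norm_num,
        show (-2 : ℤ) + 3 = 1 by norm_num, show (-2 : ℤ) + 4 = 2 by norm_num,
        show (-2 : ℤ) + 5 = 3 by norm_num, h0, gW]
      have c1 := s.W_cases (c (-2))
      have c2 := s.W_cases (c 1)
      have c3 := s.W_cases (c 2)
      have c4 := s.W_cases (c 3)
      have : ¬ (s.W (c 2) = 0 ∧ s.W (c 3) = 0) := by
        rintro ⟨h2, h3⟩
        have n23 : c 2 ≠ c 3 := by
          have := w.red 2
          rw [show (2 : ℤ) + 1 = 3 by norm_num] at this; exact this.symm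
        refine ok.no_two_zero h2 h3 n23 (P := P 3) ?_ ?_
        · have := w.join 2
          rw [show (2 : ℤ) + 1 = 3 by norm_num] at this
          rcases this with ⟨_, h⟩ | ⟨_, h⟩
          · exact Or.inr h
          · exact Or.inl h
        · rcases w.join 3 with ⟨h, _⟩ | ⟨h, _⟩
          · exact Or.inl h
          · exact Or.inr h
      omega


lemma W_ge_of_ne {c : A × Bool} (h : s.W c ≠ 0) : 3 ≤ s.W c := by
  rcases s.W_cases c with h | h | h <;> omega

/-- a corner traversed from `P` to `Q` in the direction of its arc -/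
lemma Ok.double (ok : s.Ok) {e e' : A × Bool} {P Q : V × Bool} (h : Join s e P Q)
    (h' : Join s e' Q P) (hne : e' ≠ e) : s.W e = 6 ∧ s.W e' = 6 := by
  rcases h with ⟨h1, h2⟩ | ⟨h1, h2⟩ <;> rcases h' with ⟨h3, h4⟩ | ⟨h3, h4⟩
  · -- e : P → Q , e' : Q → P
    have a1 : s.hd e.1 = s.tl e'.1 := congrArg Prod.fst (h2.symm.trans h3)
    have a2 : s.sg e.1 = e'.2 := congrArg Prod.snd (h2.symm.trans h3)
    have a3 : s.hd e'.1 = s.tl e.1 := congrArg Prod.fst (h4.symm.trans h1)
    have a4 : s.sg e'.1 = e.2 := congrArg Prod.snd (h4.symm.trans h1)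
    exact ⟨W_six (b := e'.1) ⟨a3, Or.inl a1⟩ a4, W_six (b := e.1) ⟨a1, Or.inl a3⟩ a2⟩
  · -- both P → Q
    exfalso
    have a1 : s.tl e.1 = s.tl e'.1 := congrArg Prod.fst (h1.symm.trans h4)
    have a2 : (s.tE e).2 = (s.tE e').2 := congrArg Prod.snd (h1.symm.trans h4)
    have a3 : s.hd e.1 = s.hd e'.1 := congrArg Prod.fst (h2.symm.trans h3)
    have a4 : s.sg e.1 = s.sg e'.1 := congrArg Prod.snd (h2.symm.trans h3)
    exact hne (Prod.ext (ok.h1 _ _ a1 a3 a4) a2).symm
  · exfalso
    have a1 : s.tl e.1 = s.tl e'.1 := congrArg Prod.fst (h2.symm.trans h3)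
    have a2 : (s.tE e).2 = (s.tE e').2 := congrArg Prod.snd (h2.symm.trans h3)
    have a3 : s.hd e.1 = s.hd e'.1 := congrArg Prod.fst (h1.symm.trans h4)
    have a4 : s.sg e.1 = s.sg e'.1 := congrArg Prod.snd (h1.symm.trans h4)
    exact hne (Prod.ext (ok.h1 _ _ a1 a3 a4) a2).symm
  · have a1 : s.hd e.1 = s.tl e'.1 := congrArg Prod.fst (h1.symm.trans h4)
    have a2 : s.sg e.1 = e'.2 := congrArg Prod.snd (h1.symm.trans h4)
    have a3 : s.hd e'.1 = s.tl e.1 := congrArg Prod.fst (h3.symm.trans h2)
    have a4 : s.sg e'.1 = e.2 := congrArg Prod.snd (h3.symm.trans h2)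
    exact ⟨W_six (b := e'.1) ⟨a3, Or.inl a1⟩ a4, W_six (b := e.1) ⟨a1, Or.inl a3⟩ a2⟩

/-- `x : P → Q`, `y : Q → R`, `z` joins `R` and `P` : then `y` or `z` or `x` has weight 6 -/
lemma W_tri {x y z : A × Bool} {P Q R : V × Bool} (hx1 : P = s.tE x) (hx2 : Q = s.hE x)
    (hy1 : Q = s.tE y) (hy2 : R = s.hE y) (hz : Join s z R P) : s.W y = 6 := by
  have a1 : s.hd x.1 = s.tl y.1 := congrArg Prod.fst (hx2.symm.trans hy1)
  have a2 : s.sg x.1 = y.2 := congrArg Prod.snd (hx2.symm.trans hy1)
  refine W_six (b := x.1) ⟨a1, Or.inr ?_⟩ a2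
  rcases hz with ⟨h1, h2⟩ | ⟨h1, h2⟩
  · left
    exact ⟨z.1, congrArg Prod.fst (h1.symm.trans hy2), congrArg Prod.fst (h2.symm.trans hx1)⟩
  · right
    exact ⟨z.1, congrArg Prod.fst (h2.symm.trans hx1), congrArg Prod.fst (h1.symm.trans hy2),
      congrArg Prod.snd (h1.symm.trans hy2)⟩

/-- the link of a vertex: every reduced closed walk has weight at least 12 -/
theorem Walk.total (ok : s.Ok) (w : Walk s N c P) : 12 ≤ ∑ j ∈ range N, s.W (c j) := by
  by_cases hzero : ∃ j, s.W (c j) = 0
  · obtain ⟨j, hj⟩ := hzero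
    have w1 := w.shift j
    have hsum := w.sum_shift j
    rcases w.join j with ⟨h1, _⟩ | ⟨_, h2⟩
    · have := w1.zero_left ok (by simpa using hj) (by simpa using h1)
      rw [hsum] at this
      exact this
    · have w2 := (w.shift (j + 1)).reverse
      have := w2.zero_left ok (by simpa using hj) (by simpa using h2)
      have e1 := (w.shift (j + 1)).sum_reverse
      have e2 := w.sum_shift (j + 1)
      rw [e1, e2] at this
      exact this
  · push Not at hzero
    have h3 : ∀ j, 3 ≤ s.W (c j) := fun j => W_ge_of_ne (hzero j)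
    have hN := w.pos
    rcases Nat.lt_or_ge N 4 with hN4 | hN4
    · have hN' : N = 1 ∨ N = 2 ∨ N = 3 := by omega
      rcases hN' with rfl | rfl | rfl
      · exfalso
        have h1 := w.cper 0
        have h2 := w.red 0
        simp only [Nat.cast_one] at h1
        exact h2 h1
      · have e : P 2 = P 0 := by have := w.pper 0; simpa using this
        have j0 : Join s (c 0) (P 0) (P 1) := by have := w.join 0; simpa using this
        have j1 : Join s (c 1) (P 1) (P 2) := by have := w.join 1; simpa using this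
        rw [e] at j1
        have hne : c 1 ≠ c 0 := by have := w.red 0; simpa using this
        have := ok.double j0 j1 hne
        simp only [Finset.sum_range_succ, Finset.sum_range_zero, Nat.cast_zero, Nat.cast_one]
        omega
      · have e : P 3 = P 0 := by have := w.pper 0; simpa using this
        have j0 : Join s (c 0) (P 0) (P 1) := by have := w.join 0; simpa using this
        have j1 : Join s (c 1) (P 1) (P 2) := by have := w.join 1; simpa using this
        have j2 : Join s (c 2) (P 2) (P 3) := by have := w.join 2; simpa using this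
        rw [e] at j2
        have k0 := h3 0
        have k1 := h3 1
        have k2 := h3 2
        have key : s.W (c 0) = 6 ∨ s.W (c 1) = 6 ∨ s.W (c 2) = 6 := by
          rcases id j0 with ⟨a1, a2⟩ | ⟨a1, a2⟩ <;> rcases id j1 with ⟨b1, b2⟩ | ⟨b1, b2⟩ <;>
            rcases id j2 with ⟨c1, c2⟩ | ⟨c1, c2⟩
          · -- P0→P1→P2→P0
            exact Or.inr (Or.inl (W_tri a1 a2 b1 b2 j2))
          · -- P0→P1→P2, P0→P2
            exact Or.inr (Or.inl (W_tri a1 a2 b1 b2 j2))
          · -- P0→P1, P2→P1, P2→P0 : P2→P0→P1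
            exact Or.inl (W_tri c1 c2 a1 a2 j1)
          · -- P0→P1, P2→P1, P0→P2 : P0→P2→P1
            exact Or.inr (Or.inl (W_tri c2 c1 b2 b1 j0.symm))
          · -- P1→P0, P1→P2, P2→P0 : P1→P2→P0
            exact Or.inr (Or.inr (W_tri b1 b2 c1 c2 j0))
          · -- P1→P0, P1→P2, P0→P2 : P1→P0→P2
            exact Or.inr (Or.inr (W_tri a2 a1 c2 c1 j1.symm))
          · -- P1→P0, P2→P1, P2→P0 : P2→P1→P0
            exact Or.inl (W_tri b2 b1 a2 a1 j2.symm)
          · -- P1→P0, P2→P1, P0→P2 : P0→P2→P1→P0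
            exact Or.inr (Or.inl (W_tri c2 c1 b2 b1 j0.symm))
        simp only [Finset.sum_range_succ, Finset.sum_range_zero, Nat.cast_zero, Nat.cast_one,
          Nat.cast_ofNat]
        omega
    · have hsub : ∑ j ∈ range 4, s.W (c j) ≤ ∑ j ∈ range N, s.W (c j) :=
        Finset.sum_le_sum_of_subset (fun x hx => mem_range.2 (by have := mem_range.1 hx; omega))
      refine le_trans ?_ hsub
      simp only [Finset.sum_range_succ, Finset.sum_range_zero]
      have k0 := h3 ((0 : ℕ) : ℤ)
      have k1 := h3 ((1 : ℕ) : ℤ)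
      have k2 := h3 ((2 : ℕ) : ℤ)
      have k3 := h3 ((3 : ℕ) : ℤ)
      omega

/-- the two halves of an arc have total weight 6 -/
theorem Ok.W_add (ok : s.Ok) (a : A) : s.W (a, true) + s.W (a, false) = 6 := by
  by_cases h : ∃ b, s.Feeds b a
  · obtain ⟨b, hb⟩ := h
    obtain ⟨C, hC⟩ := ok.exists_cyc hb
    have huniq : ∀ b', s.Feeds b' a → b' = b := by
      intro b' hb'
      obtain ⟨C', hC'⟩ := ok.exists_cyc hb'
      have e := hC.eq_of_meet ok hC' (tl_mem hC.ha) (tl_mem hC'.ha)
      exact hC.hda b' (e ▸ hC'.hb) hb'.1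
    have key : ∀ δ, s.W (a, δ) = if s.sg b = δ then 6 else 0 := by
      intro δ
      by_cases hδ : s.sg b = δ
      · rw [if_pos hδ]; exact W_six (b := b) hb hδ
      · rw [if_neg hδ]
        unfold W
        rw [if_neg, if_pos ⟨b, hb⟩]
        rintro ⟨b', hb', e⟩
        exact hδ (huniq b' hb' ▸ e)
    rw [key, key]
    cases s.sg b <;> simp
  · have key : ∀ δ, s.W (a, δ) = 3 := by
      intro δ
      unfold W
      rw [if_neg, if_neg h]
      rintro ⟨b', hb', _⟩
      exact h ⟨b', hb'⟩
    rw [key, key]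

end Sys
end RLT
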