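import Pool.Agent.Lib_helper9.LOT.Defs
import Pool.Agent.Lib_helper9.LOT.Walk

/-!
# Gauss–Bonnet: the weight test
-/

namespace RLT
open Finset

section cycles

variable {D : Type} [Fintype D]

open Classical in
/-- if every cycle of `f` carries weight at least `m`, the total weight is at least `m` times the
number of cycles -/
lemma mul_numCycles_le (f : Equiv.Perm D) (w : D → ℕ) (m : ℕ)
    (h : ∀ d, ∃ S : Finset D, (∀ x ∈ S, f.SameCycle d x) ∧ m ≤ ∑ x ∈ S, w x) :
    m * numCycles f ≤ ∑ x, w x := by
  let q : D → Quotient (Equiv.Perm.SameCycle.setoid f) := fun x => Quotient.mk _ x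
  have e1 : ∑ x, w x = ∑ y : Quotient (Equiv.Perm.SameCycle.setoid f),
      ∑ x ∈ univ.filter (fun x => q x = y), w x :=
    (Finset.sum_fiberwise_of_maps_to (fun x _ => mem_univ (q x)) w).symm
  rw [e1, numCycles, Nat.card_eq_fintype_card, mul_comm, ← smul_eq_mul, ← Finset.card_univ]
  refine Finset.card_nsmul_le_sum _ _ _ fun y _ => ?_
  obtain ⟨d, rfl⟩ := Quotient.exists_rep y
  obtain ⟨S, hS, hm⟩ := h d
  refine hm.trans (Finset.sum_le_sum_of_subset fun x hx => ?_)
  rw [mem_filter]
  exact ⟨mem_univ _, Quotient.sound (hS x hx).symm⟩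


open Classical in
/-- if every cycle of `f` has at most `m` elements -/
lemma card_le_mul_numCycles (f : Equiv.Perm D) (m : ℕ)
    (h : ∀ d, ∃ S : Finset D, S.card ≤ m ∧ ∀ x, f.SameCycle d x → x ∈ S) :
    Fintype.card D ≤ m * numCycles f := by
  let q : D → Quotient (Equiv.Perm.SameCycle.setoid f) := fun x => Quotient.mk _ x
  rw [numCycles, Nat.card_eq_fintype_card, ← Finset.card_univ, ← Finset.card_univ]
  refine Finset.card_le_mul_card_image_of_maps_to (f := q) (fun x _ => mem_univ _) m ?_
  intro y _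
  obtain ⟨d, rfl⟩ := Quotient.exists_rep y
  obtain ⟨S, hS, hm⟩ := h d
  refine (Finset.card_le_card fun x hx => ?_).trans hS
  rw [mem_filter] at hx
  have : Quotient.mk (Equiv.Perm.SameCycle.setoid f) x = Quotient.mk _ d := hx.2
  exact hm x (Quotient.exact this).symm

end cycles

/-! ### the link of `K(L)` -/

variable {V E : Type}

/-- the arcs `i(e) → (λ(e), +)` and `t(e) → (λ(e), -)` -/
def LOG.sys (L : LOG V E) : Sys (E × Bool) V where
  tl := fun a => if a.2 then L.i a.1 else L.t a.1
  hd := fun a => L.lab a.1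
  sg := fun a => a.2

def cornerOf (e : E) : Fin 4 → (E × Bool) × Bool :=
  ![((e, true), true), ((e, true), false), ((e, false), false), ((e, false), true)]

lemma inv_inv (x : V × Bool) : inv (inv x) = x := by
  simp [inv]

lemma cornerOf_inj {e e' : E} {k k' : Fin 4} (h : cornerOf e k = cornerOf e' k') :
    e = e' ∧ k = k' := by
  fin_cases k <;> fin_cases k' <;> simp_all [cornerOf]

lemma corner_join [DecidableEq E] [DecidableEq V] (L : LOG V E) (e : E) (k : Fin 4) :
    Sys.Join L.sys (cornerOf e (k + 1)) (inv (L.letter e k)) (L.letter e (k + 1)) := by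
  fin_cases k <;>
    simp [Sys.Join, Sys.tE, Sys.hE, LOG.sys, cornerOf, LOG.letter, inv]

lemma letter_ne (L : LOG V E) (h : L.Reduced) (e : E) (k : Fin 4) :
    L.letter e k ≠ inv (L.letter e (k + 1)) := by
  have h1 := (h.1 e).1
  have h2 := (h.1 e).2
  fin_cases k <;> simp [LOG.letter, inv, h1, h2]

namespace SphericalDiagram

variable {L : LOG V E} (X : SphericalDiagram L)

def letterAt (d : X.Side) : V × Bool :=
  if X.fwd d then L.letter (X.sq d) (X.pos d) else inv (L.letter (X.sq d) (X.pos d))

def idx (d : X.Side) : Fin 4 := if X.fwd d then X.pos d else X.pos d + 1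

def cor (d : X.Side) : (E × Bool) × Bool := cornerOf (X.sq d) (X.idx d)

def rot : Equiv.Perm X.Side := X.nxt * X.opp

lemma glue' (d : X.Side) : X.letterAt (X.opp d) = inv (X.letterAt d) := X.glue d

lemma rot_apply (d : X.Side) : X.rot d = X.nxt (X.opp d) := rfl

lemma letterAt_nxt (d : X.Side) : X.letterAt (X.nxt d) =
    if X.fwd d then L.letter (X.sq d) (X.pos d + 1) else inv (L.letter (X.sq d) (X.pos d - 1)) := by
  unfold letterAt
  rw [X.fwd_nxt, X.sq_nxt, X.pos_nxt]
  split_ifs <;> rfl

lemma idx_nxt (d : X.Side) : X.idx (X.nxt d) = if X.fwd d then X.pos d + 1 else X.pos d := by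
  unfold idx
  rw [X.fwd_nxt, X.pos_nxt]
  split_ifs
  · rfl
  · generalize X.pos d = k; revert k; decide

lemma join [DecidableEq E] [DecidableEq V] (d : X.Side) :
    Sys.Join L.sys (X.cor (X.rot d)) (X.letterAt d) (X.letterAt (X.rot d)) := by
  have hd : X.letterAt d = inv (X.letterAt (X.opp d)) := by rw [glue', inv_inv]
  rw [hd, rot_apply]
  generalize X.opp d = d'
  unfold cor
  rw [X.sq_nxt, idx_nxt, letterAt_nxt]
  unfold letterAt
  by_cases h : X.fwd d' = true
  · simp only [h, if_true]
    exact corner_join L _ _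
  · simp only [h, if_false, inv_inv, Bool.false_eq_true]
    have := (corner_join L (X.sq d') (X.pos d' - 1)).symm
    rwa [sub_add_cancel] at this

lemma red (hL : L.Reduced) (hX : ∀ d, ¬ (X.sq (X.opp d) = X.sq d ∧ X.pos (X.opp d) = X.pos d ∧
    X.fwd (X.opp d) ≠ X.fwd d)) (d : X.Side) : X.cor (X.rot d) ≠ X.cor d := by
  intro h
  obtain ⟨h1, h2⟩ := cornerOf_inj h
  rw [rot_apply] at h1 h2
  rw [X.sq_nxt] at h1
  rw [idx_nxt] at h2
  have hg := X.glue' d
  unfold letterAt at hg
  unfold idx at h2
  by_cases a : X.fwd (X.opp d) = true <;> by_cases b : X.fwd d = true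
  · simp only [a, b, if_true] at h2 hg
    rw [← h2, h1] at hg
    exact letter_ne L hL _ _ hg
  · simp only [a, b, if_true, if_false, Bool.false_eq_true] at h2
    refine hX d ⟨h1, ?_, ?_⟩
    · exact add_right_cancel h2
    · rw [a]; exact fun e => b e.symm
  · simp only [a, b, if_true, if_false, Bool.false_eq_true] at h2
    refine hX d ⟨h1, h2, ?_⟩
    rw [b]; exact a
  · simp only [a, b, if_false, Bool.false_eq_true] at h2 hg
    rw [h2, h1, inv_inv] at hg
    exact letter_ne L hL _ _ hg.symm

/-- the four corners of a face -/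
lemma sum_face [DecidableEq E] [DecidableEq V] (ok : L.sys.Ok) (d : X.Side) :
    L.sys.W (X.cor d) + L.sys.W (X.cor (X.nxt d)) + L.sys.W (X.cor (X.nxt (X.nxt d))) +
      L.sys.W (X.cor (X.nxt (X.nxt (X.nxt d)))) = 12 := by
  have h1 := ok.W_add (X.sq d, true)
  have h2 := ok.W_add (X.sq d, false)
  have e1 : X.idx (X.nxt d) = if X.fwd d then X.idx d + 1 else X.idx d - 1 := by
    rw [idx_nxt]; unfold idx
    generalize X.pos d = k; revert k; cases X.fwd d <;> decide
  have e2 : X.idx (X.nxt (X.nxt d)) = if X.fwd d then X.idx d + 2 else X.idx d - 2 := by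
    rw [idx_nxt, X.fwd_nxt, X.pos_nxt]; unfold idx
    generalize X.pos d = k; revert k; cases X.fwd d <;> decide
  have e3 : X.idx (X.nxt (X.nxt (X.nxt d))) = if X.fwd d then X.idx d + 3 else X.idx d - 3 := by
    rw [idx_nxt, X.fwd_nxt, X.fwd_nxt, X.pos_nxt, X.fwd_nxt, X.pos_nxt]; unfold idx
    generalize X.pos d = k; revert k; cases X.fwd d <;> decide
  have key : ∀ k : Fin 4, L.sys.W (cornerOf (X.sq d) k) + L.sys.W (cornerOf (X.sq d) (k + 1)) +
      L.sys.W (cornerOf (X.sq d) (k + 2)) + L.sys.W (cornerOf (X.sq d) (k + 3)) = 12 := by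
    intro k
    fin_cases k <;> simp [cornerOf] <;> omega
  unfold cor
  simp only [X.sq_nxt, e1, e2, e3]
  split_ifs
  · exact key _
  · have := key (X.idx d)
    have r1 : X.idx d - 1 = X.idx d + 3 := by generalize X.idx d = k; revert k; decide
    have r2 : X.idx d - 2 = X.idx d + 2 := by generalize X.idx d = k; revert k; decide
    have r3 : X.idx d - 3 = X.idx d + 1 := by generalize X.idx d = k; revert k; decide
    rw [r1, r2, r3]
    omega


/-- the corners around a vertex -/
lemma vertex [DecidableEq E] [DecidableEq V] (ok : L.sys.Ok) (hL : L.Reduced)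
    (hX : ∀ d, ¬ (X.sq (X.opp d) = X.sq d ∧ X.pos (X.opp d) = X.pos d ∧
      X.fwd (X.opp d) ≠ X.fwd d)) (d : X.Side) :
    ∃ S : Finset X.Side, (∀ x ∈ S, X.rot.SameCycle d x) ∧ 12 ≤ ∑ x ∈ S, L.sys.W (X.cor x) := by
  classical
  have := X.fin
  set N := Function.minimalPeriod (⇑X.rot) d with hN
  have hNpos : 0 < N :=
    Function.minimalPeriod_pos_of_mem_periodicPts (X.rot.injective.mem_periodicPts d)
  have hper : (X.rot ^ N) d = d := by
    rw [← Equiv.Perm.iterate_eq_pow]
    exact Function.iterate_minimalPeriod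
  have hinj : Set.InjOn (fun j : ℕ => (X.rot ^ (j + 1)) d) (range N : Set ℕ) := by
    intro a ha b hb h
    have h' : (X.rot ^ a) d = (X.rot ^ b) d := by
      simp only [pow_succ', Equiv.Perm.mul_apply] at h
      exact X.rot.injective h
    rw [← Equiv.Perm.iterate_eq_pow, ← Equiv.Perm.iterate_eq_pow] at h'
    exact Function.iterate_injOn_Iio_minimalPeriod (f := ⇑X.rot) (x := d)
      (by simpa using ha) (by simpa using hb) h'
  refine ⟨(range N).image (fun j : ℕ => (X.rot ^ (j + 1)) d), ?_, ?_⟩
  · intro x hx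
    obtain ⟨j, _, rfl⟩ := mem_image.1 hx
    exact ⟨((j + 1 : ℕ) : ℤ), by rw [zpow_natCast]⟩
  · rw [Finset.sum_image hinj]
    have hperz : ∀ j : ℤ, (X.rot ^ (j + N)) d = (X.rot ^ j) d := by
      intro j
      rw [zpow_add, Equiv.Perm.mul_apply, zpow_natCast, hper]
    have hstep : ∀ j : ℤ, (X.rot ^ (j + 1)) d = X.rot ((X.rot ^ j) d) := by
      intro j
      rw [add_comm, zpow_add, zpow_one, Equiv.Perm.mul_apply]
    have w : Sys.Walk L.sys N (fun j : ℤ => X.cor ((X.rot ^ (j + 1)) d))
        (fun j : ℤ => X.letterAt ((X.rot ^ j) d)) :=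
      { pos := hNpos
        cper := fun j => by
          have := hperz (j + 1)
          rw [show j + (N : ℤ) + 1 = j + 1 + N by ring]
          simp only [this]
        pper := fun j => by simp only [hperz]
        join := fun j => by
          have := X.join ((X.rot ^ j) d)
          rw [← hstep] at this
          exact this
        red := fun j => by
          have := X.red hL hX ((X.rot ^ (j + 1)) d)
          rw [← hstep] at this
          exact this }
    have := w.total ok
    refine this.trans (le_of_eq (Finset.sum_congr rfl fun j _ => ?_))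
    have e : ((j : ℤ) + 1) = ((j + 1 : ℕ) : ℤ) := by push_cast; ring
    simp only [e, zpow_natCast]

end SphericalDiagram

/-- The weight test for reduced labelled oriented graphs without two short cycles close to each
other. -/
theorem DR_of_ok [DecidableEq E] [DecidableEq V] (L : LOG V E) (hL : L.Reduced)
    (ok : L.sys.Ok) : DR L := by
  intro X
  by_contra hX
  push Not at hX
  have hX' : ∀ d, ¬ (X.sq (X.opp d) = X.sq d ∧ X.pos (X.opp d) = X.pos d ∧
      X.fwd (X.opp d) ≠ X.fwd d) := by
    rintro d ⟨h1, h2, h3⟩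
    exact h3 (hX d h1 h2)
  classical
  have := X.fin
  -- vertices
  have hV : 12 * numCycles X.rot ≤ ∑ x, L.sys.W (X.cor x) :=
    mul_numCycles_le X.rot _ 12 (X.vertex ok hL hX')
  -- total weight
  have hW : 4 * ∑ x, L.sys.W (X.cor x) = 12 * Fintype.card X.Side := by
    have e1 : ∑ x, L.sys.W (X.cor (X.nxt x)) = ∑ x, L.sys.W (X.cor x) :=
      Equiv.sum_comp X.nxt (fun x => L.sys.W (X.cor x))
    have e2 : ∑ x, L.sys.W (X.cor (X.nxt (X.nxt x))) = ∑ x, L.sys.W (X.cor x) :=
      (Equiv.sum_comp X.nxt (fun x => L.sys.W (X.cor (X.nxt x)))).trans e1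
    have e3 : ∑ x, L.sys.W (X.cor (X.nxt (X.nxt (X.nxt x)))) = ∑ x, L.sys.W (X.cor x) :=
      (Equiv.sum_comp X.nxt (fun x => L.sys.W (X.cor (X.nxt (X.nxt x))))).trans e2
    have e4 : ∑ x, (L.sys.W (X.cor x) + L.sys.W (X.cor (X.nxt x)) +
        L.sys.W (X.cor (X.nxt (X.nxt x))) + L.sys.W (X.cor (X.nxt (X.nxt (X.nxt x))))) =
        12 * Fintype.card X.Side := by
      rw [Finset.sum_congr rfl (fun x _ => X.sum_face ok x), Finset.sum_const, smul_eq_mul,
        Finset.card_univ, mul_comm]
    rw [Finset.sum_add_distrib, Finset.sum_add_distrib, Finset.sum_add_distrib, e1, e2, e3] at e4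
    omega
  -- faces have at least four sides
  have hF : 4 * numCycles X.nxt ≤ Fintype.card X.Side := by
    have := mul_numCycles_le X.nxt (fun _ => 1) 4 (fun d => by
      refine ⟨{d, X.nxt d, X.nxt (X.nxt d), X.nxt (X.nxt (X.nxt d))}, ?_, ?_⟩
      · intro x hx
        simp only [mem_insert, mem_singleton] at hx
        rcases hx with rfl | rfl | rfl | rfl
        · exact Equiv.Perm.SameCycle.refl _ _
        · exact ⟨1, rfl⟩
        · exact ⟨2, rfl⟩
        · exact ⟨3, rfl⟩
      · have key : ∀ (k : Fin 4) (b : Bool),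
            (k ≠ if b then k + 1 else k - 1) ∧
            (k ≠ if b then (if b then k + 1 else k - 1) + 1 else (if b then k + 1 else k - 1) - 1) ∧
            (k ≠ if b then (if b then (if b then k + 1 else k - 1) + 1 else
              (if b then k + 1 else k - 1) - 1) + 1 else (if b then (if b then k + 1 else k - 1) + 1
              else (if b then k + 1 else k - 1) - 1) - 1) := by decide
        have n1 : ∀ x, x ≠ X.nxt x := by
          intro x e
          have h := X.pos_nxt x
          rw [← e] at h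
          exact (key (X.pos x) (X.fwd x)).1 h
        have n2 : ∀ x, x ≠ X.nxt (X.nxt x) := by
          intro x e
          have h := X.pos_nxt (X.nxt x)
          rw [← e, X.fwd_nxt x, X.pos_nxt x] at h
          exact (key (X.pos x) (X.fwd x)).2.1 h
        have n3 : ∀ x, x ≠ X.nxt (X.nxt (X.nxt x)) := by
          intro x e
          have h := X.pos_nxt (X.nxt (X.nxt x))
          rw [← e, X.fwd_nxt (X.nxt x), X.fwd_nxt x, X.pos_nxt (X.nxt x), X.fwd_nxt x,
            X.pos_nxt x] at h
          exact (key (X.pos x) (X.fwd x)).2.2 h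
        simp only [sum_const, smul_eq_mul, mul_one]
        rw [card_insert_of_notMem, card_insert_of_notMem, card_pair (n1 _)]
        · simp only [mem_insert, mem_singleton, not_or]
          exact ⟨n1 _, n2 _⟩
        · simp only [mem_insert, mem_singleton, not_or]
          exact ⟨n1 _, n2 _, n3 _⟩)
    simpa using this
  -- edges have two sides
  have hE : Fintype.card X.Side ≤ 2 * numCycles X.opp :=
    card_le_mul_numCycles X.opp 2 (fun d => by
      refine ⟨{d, X.opp d}, card_le_two, ?_⟩
      rintro x ⟨n, rfl⟩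
      have h2 : X.opp ^ (2 : ℤ) = 1 := by
        ext y
        exact X.opp_opp y
      rcases Int.even_or_odd' n with ⟨m, rfl | rfl⟩
      · rw [zpow_mul, h2, one_zpow]; simp
      · rw [zpow_add, zpow_mul, h2, one_zpow]; simp)
  have he := X.euler
  have hr : numCycles (X.nxt * X.opp) = numCycles X.rot := rfl
  rw [hr] at he
  omega

end RLT
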