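import Mathlib

/-!
# Reduced closed walks in the link of a labelled oriented graph have weight at least 12

An arc `a` goes from the generator `tl a` to the signed generator `(hd a, sg a)`.
-/

namespace RLT
open Finset

variable {A V : Type}

structure Sys (A V : Type) where
  tl : A → V
  hd : A → V
  sg : A → Bool

namespace Sys

variable [DecidableEq A] [DecidableEq V] (s : Sys A V)

def verts (S : Finset A) : Finset V := S.image s.tl ∪ S.image s.hd

structure Ok : Prop where
  h0 : ∀ a, s.tl a ≠ s.hd a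
  h1 : ∀ a b, s.tl a = s.tl b → s.hd a = s.hd b → s.sg a = s.sg b → a = b
  hu : ∀ S : Finset A, S.card ≤ 7 → S.card ≤ (s.verts S).card

def Feeds (b a : A) : Prop :=
  s.hd b = s.tl a ∧ (s.hd a = s.tl b ∨ (∃ c, s.tl c = s.hd a ∧ s.hd c = s.tl b) ∨
    ∃ c, s.tl c = s.tl b ∧ s.hd c = s.hd a ∧ s.sg c = s.sg a)

open Classical in
noncomputable def W (c : A × Bool) : ℕ :=
  if ∃ b, s.Feeds b c.1 ∧ s.sg b = c.2 then 6 else if ∃ b, s.Feeds b c.1 then 0 else 3

variable {s}

lemma mem_verts {S : Finset A} {v : V} :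
    v ∈ s.verts S ↔ ∃ a ∈ S, s.tl a = v ∨ s.hd a = v := by
  simp only [verts, mem_union, mem_image]
  constructor
  · rintro (⟨a, h, e⟩ | ⟨a, h, e⟩)
    · exact ⟨a, h, Or.inl e⟩
    · exact ⟨a, h, Or.inr e⟩
  · rintro ⟨a, h, e | e⟩
    · exact Or.inl ⟨a, h, e⟩
    · exact Or.inr ⟨a, h, e⟩

lemma tl_mem {S : Finset A} {a : A} (h : a ∈ S) : s.tl a ∈ s.verts S :=
  mem_verts.2 ⟨a, h, Or.inl rfl⟩

lemma hd_mem {S : Finset A} {a : A} (h : a ∈ S) : s.hd a ∈ s.verts S :=
  mem_verts.2 ⟨a, h, Or.inr rfl⟩

lemma verts_mono {S T : Finset A} (h : S ⊆ T) : s.verts S ⊆ s.verts T := by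
  intro v hv
  obtain ⟨a, ha, e⟩ := mem_verts.1 hv
  exact mem_verts.2 ⟨a, h ha, e⟩

lemma verts_union (S T : Finset A) : s.verts (S ∪ T) = s.verts S ∪ s.verts T := by
  ext v
  simp only [mem_union, mem_verts]
  constructor
  · rintro ⟨a, ha | ha, e⟩
    · exact Or.inl ⟨a, ha, e⟩
    · exact Or.inr ⟨a, ha, e⟩
  · rintro (⟨a, ha, e⟩ | ⟨a, ha, e⟩)
    · exact ⟨a, Or.inl ha, e⟩
    · exact ⟨a, Or.inr ha, e⟩

/-- too many arcs on too few vertices -/
lemma Ok.few (ok : s.Ok) (S : Finset A) (T : Finset V) (hS : S.card ≤ 7)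
    (hsub : ∀ x ∈ S, s.tl x ∈ T ∧ s.hd x ∈ T) (hlt : T.card < S.card) : False := by
  have h1 := ok.hu S hS
  have h2 : s.verts S ⊆ T := by
    intro v hv
    obtain ⟨a, ha, e | e⟩ := mem_verts.1 hv
    · exact e ▸ (hsub a ha).1
    · exact e ▸ (hsub a ha).2
  have := card_le_card h2
  omega

structure Cyc (s : Sys A V) (C : Finset A) (b a : A) : Prop where
  hb : b ∈ C
  ha : a ∈ C
  hba : s.hd b = s.tl a
  feeds : s.Feeds b a
  card : C.card ≤ 3
  tight : (s.verts C).card ≤ C.card
  tla : ∀ x ∈ C, s.tl x = s.tl a → x = a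
  hda : ∀ x ∈ C, s.hd x = s.tl a → x = b
  two : ∀ x ∈ C, s.verts (C.erase x) = s.verts C

lemma verts_pair (a b : A) : s.verts {a, b} = {s.tl a, s.tl b, s.hd a, s.hd b} := by
  ext v
  simp only [mem_verts, mem_insert, mem_singleton]
  constructor
  · rintro ⟨x, rfl | rfl, rfl | rfl⟩ <;> simp
  · rintro (rfl | rfl | rfl | rfl)
    · exact ⟨a, Or.inl rfl, Or.inl rfl⟩
    · exact ⟨b, Or.inr rfl, Or.inl rfl⟩
    · exact ⟨a, Or.inl rfl, Or.inr rfl⟩
    · exact ⟨b, Or.inr rfl, Or.inr rfl⟩

lemma verts_singleton (a : A) : s.verts {a} = {s.tl a, s.hd a} := by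
  ext v
  simp only [mem_verts, mem_insert, mem_singleton]
  constructor
  · rintro ⟨x, rfl, rfl | rfl⟩ <;> simp
  · rintro (rfl | rfl)
    · exact ⟨a, rfl, Or.inl rfl⟩
    · exact ⟨a, rfl, Or.inr rfl⟩

lemma Ok.exists_cyc (ok : s.Ok) {b a : A} (h : s.Feeds b a) : ∃ C, Cyc s C b a := by
  obtain ⟨hba, h3⟩ := h
  have hb0 := ok.h0 b
  have ha0 := ok.h0 a
  have hne : b ≠ a := by
    rintro rfl
    exact ok.h0 b hba.symm
  rcases h3 with h3 | ⟨c, hc1, hc2⟩ | ⟨c, hc1, hc2, hc3⟩
  · refine ⟨{b, a}, ?_, ?_, hba, ⟨hba, Or.inl h3⟩, ?_, ?_, ?_, ?_, ?_⟩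
    · simp
    · simp
    · exact (card_le_two).trans (by norm_num)
    · rw [card_pair hne, verts_pair, hba, h3]
      have : ({s.tl b, s.tl a, s.tl a, s.tl b} : Finset V) ⊆ {s.tl b, s.tl a} := by
        intro v; simp only [mem_insert, mem_singleton]; tauto
      exact (card_le_card this).trans card_le_two
    · intro x hx e
      simp only [mem_insert, mem_singleton] at hx
      rcases hx with rfl | rfl
      · exact absurd (e.trans hba.symm) hb0
      · rfl
    · intro x hx e
      simp only [mem_insert, mem_singleton] at hx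
      rcases hx with rfl | rfl
      · rfl
      · exact absurd e.symm ha0
    · intro x hx
      simp only [mem_insert, mem_singleton] at hx
      rcases hx with rfl | rfl
      · rw [erase_insert (by simpa using hne), verts_singleton, verts_pair, hba, h3]
        ext v; simp only [mem_insert, mem_singleton]; tauto
      · rw [show ({b, x} : Finset A).erase x = {b} by
          ext v; simp only [mem_erase, mem_insert, mem_singleton]
          constructor
          · rintro ⟨h1, h2 | h2⟩
            · exact h2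
            · exact absurd h2 h1
          · rintro rfl; exact ⟨hne, Or.inl rfl⟩]
        rw [verts_singleton, verts_pair, hba, h3]
        ext v; simp only [mem_insert, mem_singleton]; tauto
  · have hc0 := ok.h0 c
    have hca : c ≠ a := by rintro rfl; exact hc0 hc1
    have hcb : c ≠ b := by rintro rfl; exact hc0 hc2.symm
    have hV : s.verts {b, a, c} = {s.tl b, s.tl a, s.tl c} := by
      ext v
      simp only [mem_verts, mem_insert, mem_singleton]
      constructor
      · rintro ⟨x, rfl | rfl | rfl, rfl | rfl⟩ <;> simp [hba, hc2, ← hc1]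
      · rintro (rfl | rfl | rfl)
        · exact ⟨b, Or.inl rfl, Or.inl rfl⟩
        · exact ⟨a, Or.inr (Or.inl rfl), Or.inl rfl⟩
        · exact ⟨c, Or.inr (Or.inr rfl), Or.inl rfl⟩
    have hcard : ({b, a, c} : Finset A).card = 3 := by
      rw [card_insert_of_notMem, card_pair hca.symm]
      simp [hne, hcb.symm]
    refine ⟨{b, a, c}, by simp, by simp, hba, ⟨hba, Or.inr (Or.inl ⟨c, hc1, hc2⟩)⟩, ?_, ?_, ?_, ?_, ?_⟩
    · rw [hcard]
    · rw [hcard, hV]; exact card_le_three
    · intro x hx e
      simp only [mem_insert, mem_singleton] at hx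
      rcases hx with rfl | rfl | rfl
      · exact absurd (e.trans hba.symm) hb0
      · rfl
      · exact absurd (hc1.symm.trans e).symm ha0
    · intro x hx e
      simp only [mem_insert, mem_singleton] at hx
      rcases hx with rfl | rfl | rfl
      · rfl
      · exact absurd e.symm ha0
      · exact absurd (hc2.symm.trans (e.trans hba.symm)) hb0
    · intro x hx
      rw [hV]
      simp only [mem_insert, mem_singleton] at hx
      rcases hx with rfl | rfl | rfl
      · rw [erase_insert (by simp [hne, hcb.symm]), verts_pair]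
        ext v; simp only [mem_insert, mem_singleton, hc1, hc2]; tauto
      · rw [show ({b, x, c} : Finset A).erase x = {b, c} by
          ext v; simp only [mem_erase, mem_insert, mem_singleton]
          constructor
          · rintro ⟨h1, h2 | h2 | h2⟩
            · exact Or.inl h2
            · exact absurd h2 h1
            · exact Or.inr h2
          · rintro (rfl | rfl)
            · exact ⟨hne, Or.inl rfl⟩
            · exact ⟨hca, Or.inr (Or.inr rfl)⟩]
        rw [verts_pair]
        ext v; simp only [mem_insert, mem_singleton, hba, hc2]; tauto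
      · rw [show ({b, a, x} : Finset A).erase x = {b, a} by
          ext v; simp only [mem_erase, mem_insert, mem_singleton]
          constructor
          · rintro ⟨h1, h2 | h2 | h2⟩
            · exact Or.inl h2
            · exact Or.inr h2
            · exact absurd h2 h1
          · rintro (rfl | rfl)
            · exact ⟨hcb.symm, Or.inl rfl⟩
            · exact ⟨hca.symm, Or.inr (Or.inl rfl)⟩]
        rw [verts_pair]
        ext v; simp only [mem_insert, mem_singleton, hba, hc1]; tauto
  · have hc0 := ok.h0 c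
    have hca : c ≠ a := by rintro rfl; exact hb0 (hc1.symm.trans hba.symm)
    have hcb : c ≠ b := by rintro rfl; exact ha0 (hba.symm.trans hc2)
    have hV : s.verts {b, a, c} = {s.tl b, s.tl a, s.hd a} := by
      ext v
      simp only [mem_verts, mem_insert, mem_singleton]
      constructor
      · rintro ⟨x, rfl | rfl | rfl, rfl | rfl⟩ <;> simp [hba, hc1, hc2]
      · rintro (rfl | rfl | rfl)
        · exact ⟨b, Or.inl rfl, Or.inl rfl⟩
        · exact ⟨a, Or.inr (Or.inl rfl), Or.inl rfl⟩
        · exact ⟨a, Or.inr (Or.inl rfl), Or.inr rfl⟩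
    have hcard : ({b, a, c} : Finset A).card = 3 := by
      rw [card_insert_of_notMem, card_pair hca.symm]
      simp [hne, hcb.symm]
    refine ⟨{b, a, c}, by simp, by simp, hba, ⟨hba, Or.inr (Or.inr ⟨c, hc1, hc2, hc3⟩)⟩,
      ?_, ?_, ?_, ?_, ?_⟩
    · rw [hcard]
    · rw [hcard, hV]; exact card_le_three
    · intro x hx e
      simp only [mem_insert, mem_singleton] at hx
      rcases hx with rfl | rfl | rfl
      · exact absurd (e.trans hba.symm) hb0
      · rfl
      · exact absurd (hc1.symm.trans (e.trans hba.symm)) hb0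
    · intro x hx e
      simp only [mem_insert, mem_singleton] at hx
      rcases hx with rfl | rfl | rfl
      · rfl
      · exact absurd e.symm ha0
      · exact absurd (hc2.symm.trans e).symm ha0
    · intro x hx
      rw [hV]
      simp only [mem_insert, mem_singleton] at hx
      rcases hx with rfl | rfl | rfl
      · rw [erase_insert (by simp [hne, hcb.symm]), verts_pair]
        ext v; simp only [mem_insert, mem_singleton, hc1, hc2]; tauto
      · rw [show ({b, x, c} : Finset A).erase x = {b, c} by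
          ext v; simp only [mem_erase, mem_insert, mem_singleton]
          constructor
          · rintro ⟨h1, h2 | h2 | h2⟩
            · exact Or.inl h2
            · exact absurd h2 h1
            · exact Or.inr h2
          · rintro (rfl | rfl)
            · exact ⟨hne, Or.inl rfl⟩
            · exact ⟨hca, Or.inr (Or.inr rfl)⟩]
        rw [verts_pair]
        ext v; simp only [mem_insert, mem_singleton, hba, hc1, hc2]; tauto
      · rw [show ({b, a, x} : Finset A).erase x = {b, a} by
          ext v; simp only [mem_erase, mem_insert, mem_singleton]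
          constructor
          · rintro ⟨h1, h2 | h2 | h2⟩
            · exact Or.inl h2
            · exact Or.inr h2
            · exact absurd h2 h1
          · rintro (rfl | rfl)
            · exact ⟨hcb.symm, Or.inl rfl⟩
            · exact ⟨hca.symm, Or.inr (Or.inl rfl)⟩]
        rw [verts_pair]
        ext v; simp only [mem_insert, mem_singleton, hba]; tauto

lemma Cyc.minimal (ok : s.Ok) {C : Finset A} {b a : A} (h : Cyc s C b a) {D : Finset A}
    (hD : D ⊆ C) (hne : D.Nonempty) (ht : (s.verts D).card ≤ D.card) : D = C := by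
  by_contra hc
  obtain ⟨x, hx, hxD⟩ := exists_of_ssubset (hD.ssubset_of_ne hc)
  have hDe : D ⊆ C.erase x := fun y hy => mem_erase.2 ⟨fun e => hxD (e ▸ hy), hD hy⟩
  have hcard : (C.erase x).card = C.card - 1 := card_erase_of_mem hx
  have h3 := h.card
  have h4 := card_le_card hDe
  have h5 : 0 < D.card := card_pos.2 hne
  have h6 : 0 < C.card := card_pos.2 ⟨x, hx⟩
  have h7 : D.card = 1 ∨ D.card = 2 := by omega
  rcases h7 with h7 | h7
  · obtain ⟨d, rfl⟩ := card_eq_one.1 h7
    rw [verts_singleton, card_pair (ok.h0 d)] at ht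
    omega
  · have h8 : C.card = 3 := by omega
    have h9 : D = C.erase x := eq_of_subset_of_card_le hDe (by omega)
    have h10 := ok.hu C (by omega)
    rw [h9, h.two x hx] at ht
    omega

lemma Cyc.eq_of_meet (ok : s.Ok) {C C' : Finset A} {b a b' a' : A} (h : Cyc s C b a)
    (h' : Cyc s C' b' a') {v : V} (hv : v ∈ s.verts C) (hv' : v ∈ s.verts C') : C = C' := by
  have e1 := card_union_add_card_inter C C'
  have e2 := card_union_add_card_inter (s.verts C) (s.verts C')
  have c1 := h.card
  have c2 := h'.card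
  have t1 := h.tight
  have t2 := h'.tight
  have hu := ok.hu (C ∪ C') (by omega)
  rw [verts_union] at hu
  have hpos : 0 < (s.verts C ∩ s.verts C').card := card_pos.2 ⟨v, mem_inter.2 ⟨hv, hv'⟩⟩
  have hDne : (C ∩ C').Nonempty := by
    rw [← card_pos]; omega
  have hsub : s.verts (C ∩ C') ⊆ s.verts C ∩ s.verts C' :=
    subset_inter (verts_mono inter_subset_left) (verts_mono inter_subset_right)
  have hle := card_le_card hsub
  have ht : (s.verts (C ∩ C')).card ≤ (C ∩ C').card := by omega
  have m1 := h.minimal ok inter_subset_left hDne ht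
  have m2 := h'.minimal ok inter_subset_right hDne ht
  exact m1.symm.trans m2

lemma Cyc.out (ok : s.Ok) {C : Finset A} {b a : A} (h : Cyc s C b a) {g : A} (hg : g ∉ C)
    (h1 : s.tl g ∈ s.verts C) (h2 : s.hd g ∈ s.verts C) : False := by
  refine ok.few (insert g C) (s.verts C) ?_ ?_ ?_
  · rw [card_insert_of_notMem hg]; have := h.card; omega
  · intro x hx
    rcases mem_insert.1 hx with rfl | hx
    · exact ⟨h1, h2⟩
    · exact ⟨tl_mem hx, hd_mem hx⟩
  · rw [card_insert_of_notMem hg]; have := h.tight; omega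

/-- two disjoint bad cycles are not joined by an arc -/
lemma Cyc.no_join (ok : s.Ok) {C C' : Finset A} {b a b' a' : A} (h : Cyc s C b a)
    (h' : Cyc s C' b' a') (hd : ∀ v, v ∈ s.verts C → v ∉ s.verts C') {g : A}
    (h1 : (s.tl g ∈ s.verts C ∧ s.hd g ∈ s.verts C') ∨ (s.hd g ∈ s.verts C ∧ s.tl g ∈ s.verts C')) :
    False := by
  have hgC : g ∉ C := by
    intro hg
    rcases h1 with h1 | h1
    · exact hd _ (hd_mem hg) h1.2
    · exact hd _ (tl_mem hg) h1.2
  have hgC' : g ∉ C' := by
    intro hg
    rcases h1 with h1 | h1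
    · exact hd _ h1.1 (tl_mem hg)
    · exact hd _ h1.1 (hd_mem hg)
  have hdis : Disjoint C C' := by
    rw [disjoint_left]
    intro x hx hx'
    exact hd _ (tl_mem hx) (tl_mem hx')
  have c1 := h.card
  have c2 := h'.card
  have t1 := h.tight
  have t2 := h'.tight
  have hc : (insert g (C ∪ C')).card = C.card + C'.card + 1 := by
    rw [card_insert_of_notMem (by simp [hgC, hgC']), card_union_of_disjoint hdis]
  refine ok.few (insert g (C ∪ C')) (s.verts C ∪ s.verts C') (by omega) ?_ ?_
  · intro x hx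
    rcases mem_insert.1 hx with rfl | hx
    · rcases h1 with h1 | h1
      · exact ⟨mem_union_left _ h1.1, mem_union_right _ h1.2⟩
      · exact ⟨mem_union_right _ h1.2, mem_union_left _ h1.1⟩
    · rcases mem_union.1 hx with hx | hx
      · exact ⟨mem_union_left _ (tl_mem hx), mem_union_left _ (hd_mem hx)⟩
      · exact ⟨mem_union_right _ (tl_mem hx), mem_union_right _ (hd_mem hx)⟩
  · have := card_union_le (s.verts C) (s.verts C')
    omega


/-! ### corners -/

def tE (s : Sys A V) (c : A × Bool) : V × Bool := (s.tl c.1, c.2)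
def hE (s : Sys A V) (c : A × Bool) : V × Bool := (s.hd c.1, s.sg c.1)

def Join (s : Sys A V) (c : A × Bool) (P Q : V × Bool) : Prop :=
  (P = s.tE c ∧ Q = s.hE c) ∨ (P = s.hE c ∧ Q = s.tE c)

lemma Join.symm {c : A × Bool} {P Q : V × Bool} (h : Join s c P Q) : Join s c Q P := by
  rcases h with ⟨h1, h2⟩ | ⟨h1, h2⟩
  · exact Or.inr ⟨h2, h1⟩
  · exact Or.inl ⟨h2, h1⟩

lemma W_cases (c : A × Bool) : s.W c = 0 ∨ s.W c = 3 ∨ s.W c = 6 := by
  unfold W; split_ifs <;> simp

lemma W_six {c : A × Bool} {b : A} (h : s.Feeds b c.1) (e : s.sg b = c.2) : s.W c = 6 := by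
  unfold W; rw [if_pos ⟨b, h, e⟩]

/-- the data of a corner of weight 0 -/
structure Zero (s : Sys A V) (z : A × Bool) (C : Finset A) (b : A) : Prop where
  cyc : Cyc s C b z.1
  sg : s.sg b = !z.2

lemma Ok.zero (ok : s.Ok) {z : A × Bool} (h : s.W z = 0) : ∃ C b, Zero s z C b := by
  unfold W at h
  split_ifs at h with h1 h2
  obtain ⟨b, hb⟩ := h2
  obtain ⟨C, hC⟩ := ok.exists_cyc hb
  refine ⟨C, b, hC, ?_⟩
  have : s.sg b ≠ z.2 := fun e => h1 ⟨b, hb, e⟩
  cases hz : s.sg b <;> cases hz2 : z.2 <;> simp_all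

/-- in the bad cycle of `z` the feeder is the only one -/
lemma Zero.W_ne (ok : s.Ok) {z : A × Bool} {C : Finset A} {b : A} (h : Zero s z C b)
    {g : A × Bool} (hg : g.1 ∉ C) {v : V} (hv : v = s.tl g.1 ∨ v = s.hd g.1)
    (hvC : v ∈ s.verts C) : s.W g = 3 := by
  unfold W
  have key : ¬ ∃ b', s.Feeds b' g.1 := by
    rintro ⟨b', hb'⟩
    obtain ⟨C', hC'⟩ := ok.exists_cyc hb'
    have : v ∈ s.verts C' := by
      rcases hv with rfl | rfl
      · exact tl_mem hC'.ha
      · exact hd_mem hC'.ha
    have e := h.cyc.eq_of_meet ok hC' hvC this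
    exact hg (e ▸ hC'.ha)
  rw [if_neg, if_neg key]
  rintro ⟨b', hb', _⟩
  exact key ⟨b', hb'⟩

/-- F3: at the tail end of a corner of weight 0 -/
lemma Zero.tail_side (ok : s.Ok) {z : A × Bool} {C : Finset A} {b : A} (h : Zero s z C b)
    {g : A × Bool} (hgz : g ≠ z) (hg : s.tE z = s.tE g ∨ s.tE z = s.hE g) :
    g.1 ∉ C ∧ s.W g = 3 := by
  have h1 : g.1 ∉ C := by
    intro hC
    rcases hg with e | e
    · simp only [tE, Prod.mk.injEq] at e
      have := h.cyc.tla g.1 hC e.1.symm
      exact hgz (Prod.ext this e.2.symm)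
    · simp only [tE, hE, Prod.mk.injEq] at e
      have := h.cyc.hda g.1 hC e.1.symm
      have h2 := h.sg
      rw [← this, ← e.2] at h2
      revert h2
      cases z.2 <;> decide
  refine ⟨h1, ?_⟩
  have hv : s.tl z.1 = s.tl g.1 ∨ s.tl z.1 = s.hd g.1 := by
    rcases hg with e | e
    · left; exact congrArg Prod.fst e
    · right; exact congrArg Prod.fst e
  exact h.W_ne ok h1 hv (tl_mem h.cyc.ha)

/-- L1: two different corners of weight 0 do not meet -/
lemma Ok.no_two_zero (ok : s.Ok) {z z' : A × Bool} (h : s.W z = 0) (h' : s.W z' = 0)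
    (hne : z ≠ z') {P : V × Bool} (h1 : P = s.tE z ∨ P = s.hE z) (h2 : P = s.tE z' ∨ P = s.hE z') :
    False := by
  obtain ⟨C, b, hz⟩ := ok.zero h
  obtain ⟨C', b', hz'⟩ := ok.zero h'
  rcases h1 with rfl | h1
  · have := (hz.tail_side ok hne.symm h2).2
    omega
  rcases h2 with rfl | h2
  · have := (hz'.tail_side ok hne (Or.inr h1)).2
    omega
  -- both heads
  subst h1
  simp only [hE, Prod.mk.injEq] at h2
  have e : C = C' := hz.cyc.eq_of_meet ok hz'.cyc (hd_mem hz.cyc.ha)
    (h2.1 ▸ hd_mem hz'.cyc.ha)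
  subst e
  have hza := hz.cyc.ha
  have hza' := hz'.cyc.ha
  have hbm := hz.cyc.hb
  have hbm' := hz'.cyc.hb
  by_cases haa : z.1 = z'.1
  · have h3 : b' = b := by
      have := hz.cyc.hda b' hbm' (by rw [hz'.cyc.hba, haa])
      exact this
    have h4 := hz.sg
    have h5 := hz'.sg
    rw [h3] at h5
    apply hne
    refine Prod.ext haa ?_
    exact Bool.not_inj (h4.symm.trans h5)
  · -- four different arcs in a set with three elements
    have t1 : s.tl z.1 ≠ s.tl z'.1 := fun e => haa (hz'.cyc.tla z.1 hza e)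
    have n1 : b ≠ z.1 := fun e => ok.h0 b (by rw [hz.cyc.hba, ← e])
    have n2 : b' ≠ z'.1 := fun e => ok.h0 b' (by rw [hz'.cyc.hba, ← e])
    have n3 : b ≠ b' := fun e => t1 (by rw [← hz.cyc.hba, ← hz'.cyc.hba, e])
    have n4 : b ≠ z'.1 := fun e => ok.h0 z.1 (by rw [← hz.cyc.hba, e, h2.1])
    have n5 : b' ≠ z.1 := fun e => ok.h0 z'.1 (by rw [← hz'.cyc.hba, e, h2.1])
    have hsub : ({b, b', z.1, z'.1} : Finset A) ⊆ C := by
      intro x hx
      simp only [mem_insert, mem_singleton] at hx
      rcases hx with rfl | rfl | rfl | rfl <;> assumption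
    have hc : ({b, b', z.1, z'.1} : Finset A).card = 4 := by
      rw [card_insert_of_notMem, card_insert_of_notMem, card_pair haa]
      · simp [n5, n2]
      · simp [n1, n3, n4]
    have := card_le_card hsub
    have := hz.cyc.card
    omega

end Sys
end RLT
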