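import Pool.Agent.Lib_helper9.LOT.Main

/-!
# There are many reduced labelings
-/

namespace RLT
open Finset

variable {n : ℕ}

open Classical in
/-- labelings equal to `0` outside `K` and reduced on `K` -/
noncomputable def redPart (i t : Fin n → Fin (n + 1)) (K : Finset (Fin n)) :
    Finset (Fin n → Fin (n + 1)) :=
  univ.filter (fun lab => (∀ e ∉ K, lab e = 0) ∧ (∀ e ∈ K, lab e ≠ i e ∧ lab e ≠ t e) ∧
    (∀ e ∈ K, ∀ e' ∈ K, e ≠ e' → i e = i e' → lab e ≠ lab e') ∧
    (∀ e ∈ K, ∀ e' ∈ K, e ≠ e' → t e = t e' → lab e ≠ lab e'))

open Classical in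
lemma redPart_insert (i t : Fin n → Fin (n + 1)) (K : Finset (Fin n)) (e : Fin n) (he : e ∉ K)
    (D : ℕ) (h1 : ∀ e, (univ.filter fun e' => e' ≠ e ∧ i e' = i e).card ≤ D)
    (h2 : ∀ e, (univ.filter fun e' => e' ≠ e ∧ t e' = t e).card ≤ D) :
    (redPart i t K).card * (n - 1 - 2 * D) ≤ (redPart i t (insert e K)).card := by
  have e1 : (redPart i t K).card * (n - 1 - 2 * D) ≤
      ((redPart i t K).sigma (fun lab => allowed i t lab e)).card := by
    rw [card_sigma, ← smul_eq_mul]
    refine Finset.card_nsmul_le_sum _ _ _ fun lab _ => ?_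
    have := card_allowed i t lab e D (by convert h1 e) (by convert h2 e)
    rw [Fintype.card_fin] at this
    omega
  refine e1.trans ?_
  refine card_le_card_of_injOn (fun x => Function.update x.1 e x.2) ?_ ?_
  · rintro ⟨lab, y⟩ hx
    simp only [coe_sigma, Set.mem_sigma_iff, mem_coe, redPart, mem_filter, mem_univ,
      true_and] at hx
    obtain ⟨⟨q0, q1, q2, q3⟩, hy⟩ := hx
    simp only [allowed, mem_sdiff, mem_univ, true_and, mem_union, mem_insert, mem_singleton,
      mem_image, mem_filter, not_or, not_exists, not_and] at hy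
    obtain ⟨⟨⟨y1, y2⟩, y3⟩, y4⟩ := hy
    have ne : ∀ x ∈ K, x ≠ e := fun x hx h => he (h ▸ hx)
    simp only [mem_coe, redPart, mem_filter, mem_univ, true_and]
    refine ⟨fun x hx => ?_, fun x hx => ?_, fun x hx x' hx' hxx hi => ?_,
      fun x hx x' hx' hxx hi => ?_⟩
    · rw [mem_insert, not_or] at hx
      rw [Function.update_of_ne hx.1]
      exact q0 x hx.2
    · rcases mem_insert.1 hx with rfl | hx
      · rw [Function.update_self]; exact ⟨y1, y2⟩
      · rw [Function.update_of_ne (ne x hx)]; exact q1 x hx
    · rcases mem_insert.1 hx with rfl | hx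
      · rcases mem_insert.1 hx' with rfl | hx'
        · exact absurd rfl hxx
        · rw [Function.update_self, Function.update_of_ne (ne x' hx')]
          exact fun e' => y3 x' ⟨Ne.symm hxx, hi.symm⟩ e'.symm
      · rw [Function.update_of_ne (ne x hx)]
        rcases mem_insert.1 hx' with rfl | hx'
        · rw [Function.update_self]
          exact y3 x ⟨hxx, hi⟩
        · rw [Function.update_of_ne (ne x' hx')]
          exact q2 x hx x' hx' hxx hi
    · rcases mem_insert.1 hx with rfl | hx
      · rcases mem_insert.1 hx' with rfl | hx'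
        · exact absurd rfl hxx
        · rw [Function.update_self, Function.update_of_ne (ne x' hx')]
          exact fun e' => y4 x' ⟨Ne.symm hxx, hi.symm⟩ e'.symm
      · rw [Function.update_of_ne (ne x hx)]
        rcases mem_insert.1 hx' with rfl | hx'
        · rw [Function.update_self]
          exact y4 x ⟨hxx, hi⟩
        · rw [Function.update_of_ne (ne x' hx')]
          exact q3 x hx x' hx' hxx hi
  · rintro ⟨lab, y⟩ hx ⟨lab', y'⟩ hx' h
    simp only [coe_sigma, Set.mem_sigma_iff, mem_coe, redPart, mem_filter, mem_univ,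
      true_and] at hx hx'
    simp only at h
    have h1 : y = y' := by
      have := congrFun h e
      simpa using this
    have h2 : lab = lab' := by
      funext x
      by_cases hxe : x = e
      · rw [hxe, hx.1.1 e he, hx'.1.1 e he]
      · have := congrFun h x
        rwa [Function.update_of_ne hxe, Function.update_of_ne hxe] at this
    subst h1 h2
    rfl

theorem le_card_redLabs (p : Fin n → Fin (n + 1)) (o : Fin n → Bool) (D : ℕ)
    (hD : ∀ v, (univ.filter fun j => p j = v).card ≤ D) :
    (n - 1 - 2 * D) ^ n ≤ (redLabs p o).card := by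
  classical
  set i := (tree p o (fun _ => 0)).i with hi
  set t := (tree p o (fun _ => 0)).t with ht
  have h1 : ∀ e, (univ.filter fun e' => e' ≠ e ∧ i e' = i e).card ≤ D := fun e => by
    have := deg_i p o D hD i
      (fun j => by simp only [hi, tree]; by_cases h : o j = true <;> simp [h]) e
    convert this
  have h2 : ∀ e, (univ.filter fun e' => e' ≠ e ∧ t e' = t e).card ≤ D := fun e => by
    have := deg_i p o D hD t
      (fun j => by simp only [ht, tree]; by_cases h : o j = true <;> simp [h]) e
    convert this
  have key : ∀ K : Finset (Fin n), (n - 1 - 2 * D) ^ K.card ≤ (redPart i t K).card := by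
    intro K
    induction K using Finset.induction_on with
    | empty =>
      rw [card_empty, pow_zero, Nat.one_le_iff_ne_zero, ← Nat.pos_iff_ne_zero, card_pos]
      refine ⟨fun _ => 0, ?_⟩
      simp [redPart]
    | insert e K he ih =>
      rw [card_insert_of_notMem he, pow_succ]
      exact (Nat.mul_le_mul_right _ ih).trans (redPart_insert i t K e he D h1 h2)
  have := key univ
  rw [card_univ, Fintype.card_fin] at this
  refine this.trans (card_le_card fun lab hlab => ?_)
  simp only [redPart, mem_filter, mem_univ, true_and, forall_true_left, not_true_eq_false,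
    false_imp_iff, implies_true] at hlab
  simp only [redLabs, mem_filter, mem_univ, true_and]
  exact ⟨hlab.1, fun e e' => hlab.2.1 e e', fun e e' => hlab.2.2 e e'⟩

end RLT
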