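import Pool.Agent.Lib_helper9.LOT.Gauss
import Pool.Agent.Lib_helper9.LOT.Count
import Pool.Agent.Lib_helper9.LOT.Forest

/-!
# Almost all reduced labelled oriented trees are diagrammatically reducible
-/

namespace RLT
open Finset

section

variable {V E : Type} [DecidableEq V] [DecidableEq E]

/-- the end points and the labels of the edges in `K` -/
def LOG.support (L : LOG V E) (K : Finset E) : Finset V :=
  K.image L.i ∪ K.image L.t ∪ K.image L.lab

/-- Deterministic criterion: if any `k ≤ 7` edges have at least `2k` end points and labels, then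
`K(L)` is diagrammatically reducible. -/
theorem DR_of_support (L : LOG V E) (hL : L.Reduced)
    (h : ∀ K : Finset E, K.card ≤ 7 → 2 * K.card ≤ (L.support K).card) : DR L := by
  refine DR_of_ok L hL ⟨?_, ?_, ?_⟩
  · rintro ⟨e, b⟩
    cases b
    · exact (hL.1 e).2.symm
    · exact (hL.1 e).1.symm
  · rintro ⟨e, b⟩ ⟨e', b'⟩ h1 h2 h3
    have h3 : b = b' := h3
    subst h3
    by_contra hne
    have hee : e ≠ e' := fun e'' => hne (by rw [e''])
    cases b
    · exact hL.2.2 e e' hee h1 h2
    · exact hL.2.1 e e' hee h1 h2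
  · intro S hS
    set K := S.image Prod.fst with hK
    have hKcard : K.card ≤ 7 := card_image_le.trans hS
    have hK2 := h K hKcard
    set S' : Finset (E × Bool) := K ×ˢ univ with hS'
    have hSS' : S ⊆ S' := by
      intro a ha
      rw [hS', mem_product]
      exact ⟨mem_image_of_mem _ ha, mem_univ _⟩
    have hcard' : S'.card = 2 * K.card := by
      rw [hS', card_product, card_univ, Fintype.card_bool, mul_comm]
    -- every vertex of `support K` is a vertex of `S` or the tail of an arc in `S' \ S`
    have hsub : L.support K ⊆ L.sys.verts S ∪ (S' \ S).image L.sys.tl := by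
      intro v hv
      have hlab : ∀ e ∈ K, L.lab e ∈ L.sys.verts S := by
        intro e he
        obtain ⟨a, ha, rfl⟩ := mem_image.1 he
        exact Sys.hd_mem (s := L.sys) ha
      have htl : ∀ e ∈ K, ∀ b, L.sys.tl (e, b) ∈
          L.sys.verts S ∪ (S' \ S).image L.sys.tl := by
        intro e he b
        by_cases hb : (e, b) ∈ S
        · exact mem_union_left _ (Sys.tl_mem hb)
        · refine mem_union_right _ (mem_image_of_mem _ (mem_sdiff.2 ⟨?_, hb⟩))
          rw [hS', mem_product]
          exact ⟨he, mem_univ _⟩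
      simp only [LOG.support, mem_union, mem_image] at hv
      rcases hv with (⟨e, he, rfl⟩ | ⟨e, he, rfl⟩) | ⟨e, he, rfl⟩
      · exact htl e he true
      · exact htl e he false
      · exact mem_union_left _ (hlab e he)
    have h1 := card_le_card hsub
    have h2 := card_union_le (L.sys.verts S) ((S' \ S).image L.sys.tl)
    have h3 : ((S' \ S).image L.sys.tl).card ≤ S'.card - S.card := by
      refine card_image_le.trans ?_
      rw [card_sdiff_of_subset hSS']
    have h4 := card_le_card hSS'
    omega

end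

variable {n : ℕ}

open Classical in
/-- the reduced labelings of the oriented tree `(p, o)` -/
noncomputable def redLabs (p : Fin n → Fin (n + 1)) (o : Fin n → Bool) :
    Finset (Fin n → Fin (n + 1)) :=
  univ.filter fun lab => (tree p o lab).Reduced

open Classical in
/-- the reduced labelings for which `K(Γ)` is not diagrammatically reducible -/
noncomputable def badLabs (p : Fin n → Fin (n + 1)) (o : Fin n → Bool) :
    Finset (Fin n → Fin (n + 1)) :=
  univ.filter fun lab => (tree p o lab).Reduced ∧ ¬ DR (tree p o lab)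

lemma redLabs_eq (p : Fin n → Fin (n + 1)) (o : Fin n → Bool) (T : Finset (Fin (n + 1))) :
    redOn (tree p o (fun _ => 0)).i (tree p o (fun _ => 0)).t T ∅ = redLabs p o := by
  ext lab
  simp only [redOn, redLabs, mem_filter, mem_univ, true_and, notMem_empty, false_imp_iff,
    implies_true, and_true]
  rfl

lemma badLabs_subset (p : Fin n → Fin (n + 1)) (o : Fin n → Bool) :
    badLabs p o ⊆ (range 8).biUnion fun k => (range (2 * k)).biUnion fun v =>
      (forests p v k).biUnion fun x =>
        redOn (tree p o (fun _ => 0)).i (tree p o (fun _ => 0)).t x.1 x.2 := by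
  intro lab hlab
  simp only [badLabs, mem_filter, mem_univ, true_and] at hlab
  obtain ⟨hr, hn⟩ := hlab
  have : ∃ K : Finset (Fin n), K.card ≤ 7 ∧ ((tree p o lab).support K).card < 2 * K.card := by
    by_contra hc
    push Not at hc
    exact hn (DR_of_support _ hr hc)
  obtain ⟨K, hK, hT⟩ := this
  simp only [mem_biUnion, mem_range]
  refine ⟨K.card, by omega, ((tree p o lab).support K).card, hT,
    ((tree p o lab).support K, K), ?_, ?_⟩
  · simp only [forests, mem_filter, mem_univ, true_and]
    intro j hj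
    have h1 : (tree p o lab).i j ∈ (tree p o lab).support K :=
      mem_union_left _ (mem_union_left _ (mem_image_of_mem _ hj))
    have h2 : (tree p o lab).t j ∈ (tree p o lab).support K :=
      mem_union_left _ (mem_union_right _ (mem_image_of_mem _ hj))
    simp only [tree] at h1 h2 ⊢
    by_cases ho : o j = true
    · simp only [ho, if_true] at h1 h2
      exact ⟨h2, h1⟩
    · simp only [ho, if_false, Bool.false_eq_true] at h1 h2
      exact ⟨h1, h2⟩
  · simp only [redOn, mem_filter, mem_univ, true_and]
    refine ⟨hr, fun e he => ?_⟩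
    exact mem_union_right _ (mem_image_of_mem _ he)

lemma deg_i (p : Fin n → Fin (n + 1)) (o : Fin n → Bool) (D : ℕ)
    (hD : ∀ v, (univ.filter fun j => p j = v).card ≤ D) (w : Fin n → Fin (n + 1))
    (hw : ∀ j, w j = p j ∨ w j = j.succ) (e : Fin n) :
    (univ.filter fun e' => e' ≠ e ∧ w e' = w e).card ≤ D := by
  have hsub : insert e (univ.filter fun e' => e' ≠ e ∧ w e' = w e) ⊆
      (univ.filter fun j => p j = w e) ∪ (univ.filter fun j : Fin n => j.succ = w e) := by
    intro j hj
    have : w j = w e := by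
      rcases mem_insert.1 hj with rfl | hj
      · rfl
      · exact (mem_filter.1 hj).2.2
    simp only [mem_union, mem_filter, mem_univ, true_and]
    rw [← this]
    rcases hw j with h | h
    · exact Or.inl h.symm
    · exact Or.inr h.symm
  have h1 := card_le_card hsub
  rw [card_insert_of_notMem (by simp)] at h1
  have h2 := card_union_le (univ.filter fun j => p j = w e)
    (univ.filter fun j : Fin n => j.succ = w e)
  have h3 : (univ.filter fun j : Fin n => j.succ = w e).card ≤ 1 := by
    rw [card_le_one]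
    intro a ha b hb
    simp only [mem_filter, mem_univ, true_and] at ha hb
    exact Fin.succ_injective _ (ha.trans hb.symm)
  have h4 := hD (w e)
  omega

lemma switch_tree (p : Fin n → Fin (n + 1)) (o : Fin n → Bool) (D : ℕ)
    (hD : ∀ v, (univ.filter fun j => p j = v).card ≤ D) (T : Finset (Fin (n + 1)))
    (K : Finset (Fin n)) :
    (redOn (tree p o (fun _ => 0)).i (tree p o (fun _ => 0)).t T K).card *
      (n - 1 - 2 * D) ^ K.card ≤ T.card ^ K.card * (redLabs p o).card := by
  classical
  have := switch (tree p o (fun _ => 0)).i (tree p o (fun _ => 0)).t T K D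
    (fun e => by
      have := deg_i p o D hD (tree p o (fun _ => 0)).i
        (fun j => by simp only [tree]; by_cases h : o j = true <;> simp [h]) e
      convert this)
    (fun e => by
      have := deg_i p o D hD (tree p o (fun _ => 0)).t
        (fun j => by simp only [tree]; by_cases h : o j = true <;> simp [h]) e
      convert this)
  rw [redLabs_eq, Fintype.card_fin] at this
  have e : n + 1 - 2 - 2 * D = n - 1 - 2 * D := by omega
  rwa [e] at this

/-- The bound for one size. -/
lemma bound_one (p : Fin n → Fin (n + 1)) (hp : ∀ j, (p j : ℕ) ≤ j) (o : Fin n → Bool) (D : ℕ)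
    (hD : ∀ v, (univ.filter fun j => p j = v).card ≤ D) (hn : 4 * D + 3 ≤ n) (k v : ℕ)
    (hk : k ≤ 7) (hv : v < 2 * k) :
    (n + 1) * ∑ x ∈ forests p v k,
      (redOn (tree p o (fun _ => 0)).i (tree p o (fun _ => 0)).t x.1 x.2).card ≤
      (13 * D + 1) ^ 13 * 26 ^ 7 * (redLabs p o).card := by
  set R := (redLabs p o).card with hR
  have hx : ∀ x ∈ forests p v k,
      (redOn (tree p o (fun _ => 0)).i (tree p o (fun _ => 0)).t x.1 x.2).card * (n + 1) ^ k ≤
        26 ^ 7 * R := by
    intro x hx
    simp only [forests, mem_filter, mem_univ, true_and] at hx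
    obtain ⟨h1, h2, _⟩ := hx
    have h := switch_tree p o D hD x.1 x.2
    rw [h1, h2] at h
    have h3 : n + 1 ≤ 2 * (n - 1 - 2 * D) := by omega
    calc (redOn (tree p o (fun _ => 0)).i (tree p o (fun _ => 0)).t x.1 x.2).card * (n + 1) ^ k
        ≤ (redOn (tree p o (fun _ => 0)).i (tree p o (fun _ => 0)).t x.1 x.2).card *
          (2 * (n - 1 - 2 * D)) ^ k := Nat.mul_le_mul_left _ (Nat.pow_le_pow_left h3 k)
      _ = ((redOn (tree p o (fun _ => 0)).i (tree p o (fun _ => 0)).t x.1 x.2).card *
          (n - 1 - 2 * D) ^ k) * 2 ^ k := by rw [mul_pow]; ring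
      _ ≤ (v ^ k * R) * 2 ^ k := Nat.mul_le_mul_right _ h
      _ = (v * 2) ^ k * R := by rw [mul_pow]; ring
      _ ≤ 26 ^ k * R := Nat.mul_le_mul_right _ (Nat.pow_le_pow_left (by omega) k)
      _ ≤ 26 ^ 7 * R := Nat.mul_le_mul_right _ (Nat.pow_le_pow_right (by norm_num) hk)
  have hA : v * D + 1 ≤ 13 * D + 1 := by nlinarith
  have hf := card_forests p hp D (13 * D + 1) hD v hA k
  have hsum : (∑ x ∈ forests p v k,
      (redOn (tree p o (fun _ => 0)).i (tree p o (fun _ => 0)).t x.1 x.2).card) * (n + 1) ^ k ≤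
        (forests p v k).card * (26 ^ 7 * R) := by
    rw [Finset.sum_mul, ← smul_eq_mul]
    exact Finset.sum_le_card_nsmul _ _ _ hx
  have hN : 0 < n + 1 := Nat.succ_pos n
  have h2k : (n + 1) ^ (2 * k) = (n + 1) ^ v * (n + 1) ^ (2 * k - v) := by
    rw [← pow_add]; congr 1; omega
  have hbig : (∑ x ∈ forests p v k,
      (redOn (tree p o (fun _ => 0)).i (tree p o (fun _ => 0)).t x.1 x.2).card) *
        (n + 1) ^ (2 * k) ≤ ((13 * D + 1) * (n + 1)) ^ v * (26 ^ 7 * R) := by
    calc _ = ((∑ x ∈ forests p v k,
        (redOn (tree p o (fun _ => 0)).i (tree p o (fun _ => 0)).t x.1 x.2).card) *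
          (n + 1) ^ k) * (n + 1) ^ k := by rw [two_mul, pow_add]; ring
      _ ≤ ((forests p v k).card * (26 ^ 7 * R)) * (n + 1) ^ k := Nat.mul_le_mul_right _ hsum
      _ = ((forests p v k).card * (n + 1) ^ k) * (26 ^ 7 * R) := by ring
      _ ≤ _ := Nat.mul_le_mul_right _ hf
  rw [h2k, mul_pow] at hbig
  have hbig2 : (∑ x ∈ forests p v k,
      (redOn (tree p o (fun _ => 0)).i (tree p o (fun _ => 0)).t x.1 x.2).card) *
        (n + 1) ^ (2 * k - v) ≤ (13 * D + 1) ^ v * (26 ^ 7 * R) := by
    have : (n + 1) ^ v * ((∑ x ∈ forests p v k,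
      (redOn (tree p o (fun _ => 0)).i (tree p o (fun _ => 0)).t x.1 x.2).card) *
        (n + 1) ^ (2 * k - v)) ≤ (n + 1) ^ v * ((13 * D + 1) ^ v * (26 ^ 7 * R)) := by
      calc _ = _ := by ring
        _ ≤ _ := hbig
        _ = _ := by ring
    exact Nat.le_of_mul_le_mul_left this (pow_pos hN v)
  calc (n + 1) * ∑ x ∈ forests p v k,
      (redOn (tree p o (fun _ => 0)).i (tree p o (fun _ => 0)).t x.1 x.2).card
      = (∑ x ∈ forests p v k,
      (redOn (tree p o (fun _ => 0)).i (tree p o (fun _ => 0)).t x.1 x.2).card) *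
        (n + 1) ^ 1 := by ring
    _ ≤ (∑ x ∈ forests p v k,
      (redOn (tree p o (fun _ => 0)).i (tree p o (fun _ => 0)).t x.1 x.2).card) *
        (n + 1) ^ (2 * k - v) :=
        Nat.mul_le_mul_left _ (Nat.pow_le_pow_right hN (by omega))
    _ ≤ (13 * D + 1) ^ v * (26 ^ 7 * R) := hbig2
    _ ≤ (13 * D + 1) ^ 13 * (26 ^ 7 * R) :=
        Nat.mul_le_mul_right _ (Nat.pow_le_pow_right (by omega) (by omega))
    _ = _ := by ring

theorem main (p : Fin n → Fin (n + 1)) (hp : ∀ j, (p j : ℕ) ≤ j) (o : Fin n → Bool) (D : ℕ)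
    (hD : ∀ v, (univ.filter fun j => p j = v).card ≤ D) :
    (n + 1) * (badLabs p o).card ≤ 10 ^ 27 * (D + 1) ^ 13 * (redLabs p o).card := by
  rcases Nat.lt_or_ge n (4 * D + 3) with hn | hn
  · have h1 : (badLabs p o).card ≤ (redLabs p o).card := by
      refine card_le_card fun lab h => ?_
      simp only [badLabs, redLabs, mem_filter, mem_univ, true_and] at h ⊢
      exact h.1
    refine Nat.mul_le_mul ?_ h1
    have : D + 1 ≤ (D + 1) ^ 13 := Nat.le_self_pow (by norm_num) _
    calc n + 1 ≤ 4 * (D + 1) := by omega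
      _ ≤ 10 ^ 27 * (D + 1) ^ 13 := Nat.mul_le_mul (by norm_num) this
  · have h0 := card_le_card (badLabs_subset p o)
    have h1 : (badLabs p o).card ≤ ∑ k ∈ range 8, ∑ v ∈ range (2 * k), ∑ x ∈ forests p v k,
        (redOn (tree p o (fun _ => 0)).i (tree p o (fun _ => 0)).t x.1 x.2).card := by
      refine h0.trans (card_biUnion_le.trans (Finset.sum_le_sum fun k _ => ?_))
      refine card_biUnion_le.trans (Finset.sum_le_sum fun v _ => ?_)
      exact card_biUnion_le
    have h2 : (n + 1) * (badLabs p o).card ≤ ∑ k ∈ range 8, ∑ v ∈ range (2 * k),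
        (13 * D + 1) ^ 13 * 26 ^ 7 * (redLabs p o).card := by
      refine (Nat.mul_le_mul_left _ h1).trans ?_
      rw [Finset.mul_sum]
      refine Finset.sum_le_sum fun k hk => ?_
      rw [Finset.mul_sum]
      refine Finset.sum_le_sum fun v hv => ?_
      exact bound_one p hp o D hD hn k v (by have := mem_range.1 hk; omega) (mem_range.1 hv)
    refine h2.trans ?_
    simp only [Finset.sum_const, card_range, smul_eq_mul, ← Finset.sum_mul]
    have h3 : ∑ x ∈ range 8, 2 * x = 56 := by decide
    rw [h3]
    have h4 : (13 * D + 1) ^ 13 ≤ 13 ^ 13 * (D + 1) ^ 13 := by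
      rw [← mul_pow]; exact Nat.pow_le_pow_left (by omega) _
    calc 56 * ((13 * D + 1) ^ 13 * 26 ^ 7 * (redLabs p o).card)
        ≤ 56 * ((13 ^ 13 * (D + 1) ^ 13) * 26 ^ 7 * (redLabs p o).card) := by gcongr
      _ = (56 * 13 ^ 13 * 26 ^ 7) * ((D + 1) ^ 13 * (redLabs p o).card) := by ring
      _ ≤ 10 ^ 27 * ((D + 1) ^ 13 * (redLabs p o).card) :=
          Nat.mul_le_mul_right _ (by norm_num)
      _ = _ := by ring

end RLT
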